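import Pool.Agent.Q62.UM.Main2
import Pool.Agent.Q68.UM.S2
import Pool.Agent.Q68.UM.S3
import Pool.Agent.Q68.UM.S8
import Pool.Agent.Q68.UM.S9
import Pool.Agent.Q257.UM.S5
import Pool.Agent.Q257.UM.S6
import Pool.Agent.Q247.UM.S7
import Pool.Agent.Q247.UM.SM
import Pool.Agent.Q162.UM.C1
import Pool.Agent.Q162.UM.C2
import Pool.Agent.Q162.UM.TH
import Pool.Agent.Q285.UM.SF
import Pool.Agent.Q111.UM.D1
import Pool.Agent.Q237.UM.DU
import Pool.Agent.Q237.UM.RA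
import Pool.Agent.Q237.UM.RB
import Pool.Agent.Q237.UM.RC
import Pool.Agent.Q211.UM.D2
import Pool.Agent.Q211.UM.D3
import Pool.Agent.Q211.UM.D6
import Pool.Agent.Q211.UM.R3
import Pool.Agent.Q211.UM.PS
import Pool.Agent.Q154.UM.D4
import Pool.Agent.Q154.UM.A3
import Pool.Agent.Q187.UM.R1
import Pool.Agent.Q224.UM.PA
import Pool.Agent.Q224.UM.PB
import Pool.Agent.Q224.UM.P1
import Pool.Agent.Q151.UM.PH
import Pool.Agent.Q151.UM.PC
import Pool.Agent.Q65.UM.T1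
import Pool.Agent.Q65.UM.T2
import Pool.Agent.Q65.UM.T3
import Pool.Agent.Q65.UM.T4
import Pool.Agent.Q65.UM.A1
import Pool.Agent.Q65.UM.A2

/-! Project UM: all lemmas put together. The number of closed orbits of a polynomial field of degree
at most `n` has, over the rotations of the field, a mean value which grows at most polynomially. -/

open Set MeasureTheory
open scoped ENNReal

namespace Pool.Agent.Q62.UM

theorem g_SF : S_SF :=
  Q285.UM.sf Q68.UM.t_S2 Q68.UM.t_S3 Q257.UM.t_S5 Q257.UM.t_S6 Q247.UM62.t_S7 Q68.UM.t_S8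
    Q68.UM.t_S9 Q162.UM.t_C1 Q162.UM.t_C2 Q247.UM62.t_SM Q162.UM.t_TH

theorem g_T4 : S_T4 := Q65.UM.t_T4 Q65.UM.t_T1 Q65.UM.t_T2 Q65.UM.t_T3

theorem g_A2 : S_A2 := Q65.UM.t_A2 Q65.UM.t_A1

theorem g_PA : S_PA :=
  Q224.UM.pa Q111.UM.t_D1 Q211.UM.t_D2 Q211.UM.t_D3 Q211.UM.t_D6 Q187.UM.t_R1 Q237.UM.t_RA
    Q237.UM.t_RB Q237.UM.t_RC

theorem g_PB : S_PB :=
  Q224.UM.pb Q111.UM.t_D1 Q211.UM.t_D2 (Q154.UM.t_D4 Q237.UM.t_DU Q211.UM.t_D3)

theorem g_PC : S_PC := pc Q211.UM.t_R3 Q224.UM.t_P1 Q211.UM.t_PS t_PH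

/-- **Uniform mean theorem.** There is an absolute constant `K` such that for every polynomial field
`(P, Q)` of degree at most `n` the number of all closed orbits of the field rotated by the angle `α`
has a majorant on `0 < α < π` with integral at most `K n ^ K`. -/
theorem main : ∃ K : ℕ, ∀ n : ℕ, 1 ≤ n → ∀ P Q : MvPolynomial (Fin 2) ℝ,
    P.totalDegree ≤ n → Q.totalDegree ≤ n →
    H709Q.Maj (fun α => ((H709U.Cl P Q α).encard : ℝ≥0∞)) (K * (n:ℝ) ^ K) := by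
  obtain ⟨K, hK⟩ := Bn_growth
  refine ⟨K, fun n hn P Q hP hQ => ?_⟩
  exact H709U.Z1aux.maj_mono (fun _ _ => le_rfl) (hK n hn)
    (maj_all g_SF Q247.UM62.t_SM g_T4 g_A2 Q154.UM.t_A3 Q211.UM.t_D6 g_PA g_PB g_PC hn hP hQ)

end Pool.Agent.Q62.UM
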