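import Mathlib

/-! Project UM: definitions (real analysis part). -/

open Real Set MeasureTheory Topology Filter
open scoped ENNReal

namespace Pool.Agent.Q62.UM

noncomputable section

/-! ### The field which follows the roots: pointwise formulas -/

/-- the square of the chord of the angle `x` -/
def Hf (x : ℝ) : ℝ := 2 - 2 * cos x

variable {d N : ℕ}

/-- the denominator of the weights -/
def den (x : Fin d → ℝ) : ℝ :=
  ∏ i, Hf (x i) + ∑ l, ∏ i ∈ Finset.univ.erase l, Hf (x i)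

/-- the weights of the directions; if all `Hf (x i)` are positive then
`lam x k = (Hf (x k))⁻¹ / (1 + ∑ i, (Hf (x i))⁻¹)` (lemma `lam_eq`) -/
def lam (x : Fin d → ℝ) (k : Fin d) : ℝ :=
  (∏ i ∈ Finset.univ.erase k, Hf (x i)) / den x

/-- the weighted sine -/
def Lam (x : Fin d → ℝ) : ℝ := ∑ k, lam x k * sin (x k)

/-- the weights of the roots -/
def aa (dir : Fin N → Fin d) (x : Fin d → ℝ) (e : Fin N → ℝ) (j : Fin N) : ℝ :=
  e j / (e j ^ 2 + Hf (x (dir j)))

/-- the mean speed of approach -/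
def mb (dir : Fin N → Fin d) (x : Fin d → ℝ) (e m : Fin N → ℝ) : ℝ :=
  (∑ j, aa dir x e j * m j) / (1 + ∑ j, aa dir x e j)

/-- the angular component of the field which follows the roots -/
def bb (dir : Fin N → Fin d) (x v : Fin d → ℝ) (e m : Fin N → ℝ) : ℝ :=
  ∑ k, lam x k * v k + mb dir x e m * Lam x

/-- the elementary monotone function -/
def Ah (s x : ℝ) : ℝ := arctan (sin x / (1 + s - cos x))

/-- the sum of the elementary monotone functions -/
def xi (dir : Fin N → Fin d) (x : Fin d → ℝ) (e : Fin N → ℝ) : ℝ :=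
  ∑ j, Ah (√(e j)) (x (dir j)) +
    ∑ k, ∑ i ∈ Finset.univ.erase k, Ah (√(Hf (x i - x k))) (x k)

/-- the sum of the kernels -/
def KK (dir : Fin N → Fin d) (x : Fin d → ℝ) (e : Fin N → ℝ) : ℝ :=
  1 + ∑ j, √(e j) / (e j + Hf (x (dir j))) +
    ∑ k, ∑ i ∈ Finset.univ.erase k, √(Hf (x i - x k)) / (Hf (x i - x k) + Hf (x k))

/-- The standing bounds at one point: `x k` are the angles measured from the directions, `v k` the
speeds and `w k` the accelerations of the directions, `e j` the distances of the roots from the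
circle, `m j` their logarithmic derivatives and `l j` the derivatives of `m j`. -/
structure Jt (dir : Fin N → Fin d) (x v w : Fin d → ℝ) (e m l : Fin N → ℝ) (κ : ℝ) : Prop where
  k0 : 0 ≤ κ
  k1 : κ ≤ 1
  e0 : ∀ j, 0 < e j
  e1 : ∀ j, e j ≤ 1
  h1 : ∀ k, |v k| ≤ κ
  h2 : ∀ k, |w k| ≤ κ
  h3 : ∀ j, |m j| * √(√(e j)) ≤ κ
  h4 : ∀ j, |l j| * √(e j) ≤ κ
  h5 : ∀ i k, |v i - v k| ≤ κ * √(√(Hf (x i - x k)))
  h6 : ∀ j i, e j * |v i - v (dir j) - m j * sin (x (dir j) - x i)| ≤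
    κ * (e j ^ 2 + Hf (x i - x (dir j)))
  h7 : ∀ i j, e i ≤ e j → |m i - m j| * √(e i) ≤ κ * √(e j)

/-! ### Derivatives along a path with `x' = δ`, `v' = w`, `e' = e n`, `m' = l` -/

def cc (x δ : Fin d → ℝ) (k : Fin d) : ℝ := 2 * sin (x k) * δ k / Hf (x k)

def dlam (x δ : Fin d → ℝ) (k : Fin d) : ℝ :=
  lam x k * (∑ i, lam x i * cc x δ i - cc x δ k)

def dLam (x δ : Fin d → ℝ) : ℝ := ∑ k, (dlam x δ k * sin (x k) + lam x k * (cos (x k) * δ k))

def daa (dir : Fin N → Fin d) (x δ : Fin d → ℝ) (e n : Fin N → ℝ) (j : Fin N) : ℝ :=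
  aa dir x e j *
    (n j - (2 * e j ^ 2 * n j + 2 * sin (x (dir j)) * δ (dir j)) / (e j ^ 2 + Hf (x (dir j))))

def dmb (dir : Fin N → Fin d) (x δ : Fin d → ℝ) (e m n l : Fin N → ℝ) : ℝ :=
  (∑ j, (daa dir x δ e n j * (m j - mb dir x e m) + aa dir x e j * l j)) /
    (1 + ∑ j, aa dir x e j)

def dbb (dir : Fin N → Fin d) (x v δ w : Fin d → ℝ) (e m n l : Fin N → ℝ) : ℝ :=
  ∑ k, (dlam x δ k * v k + lam x k * w k) + dmb dir x δ e m n l * Lam x +
    mb dir x e m * dLam x δ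

def dAh (s x s' δ : ℝ) : ℝ :=
  (s * (1 + s / 2) / (s ^ 2 + (1 + s) * Hf x) - 1 / 2) * δ - sin x / (s ^ 2 + (1 + s) * Hf x) * s'

def dxi (dir : Fin N → Fin d) (x δ : Fin d → ℝ) (e n : Fin N → ℝ) : ℝ :=
  ∑ j, dAh (√(e j)) (x (dir j)) (n j * √(e j) / 2) (δ (dir j)) +
    ∑ k, ∑ i ∈ Finset.univ.erase k, dAh (√(Hf (x i - x k))) (x k)
      (sin (x i - x k) * (δ i - δ k) / √(Hf (x i - x k))) (δ k)

end

end Pool.Agent.Q62.UM
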