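import Pool.Agent.Q62.UM.Base

/-! Project UM: definitions (configurations of roots on an interval, the two fields, algebraic
functions). -/

open Real Set MeasureTheory Topology Filter
open scoped ENNReal Polynomial

namespace Pool.Agent.Q62.UM

noncomputable section

/-- open intervals (the empty set and unbounded intervals are allowed) -/
def OI (J : Set ℝ) : Prop := IsOpen J ∧ J.OrdConnected

/-- A configuration of roots which depends on `u`: directions `exp (i y k u)`, roots at the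
directions `dir j` with `η j u = | |ω| - 1 | / (|ω| + 1)`, `s j = 1` for the roots inside of the unit
circle and `s j = -1` for those outside. -/
structure Cfg where
  d : ℕ
  N : ℕ
  dir : Fin N → Fin d
  y : Fin d → ℝ → ℝ
  η : Fin N → ℝ → ℝ
  s : Fin N → ℝ
  q : ℤ
  c : ℝ → ℂ

namespace Cfg

variable (g : Cfg)

/-- the roots -/
def root (j : Fin g.N) (u : ℝ) : ℂ :=
  (((1 - g.s j * g.η j u) / (1 + g.s j * g.η j u) : ℝ) : ℂ) *
    Complex.exp (g.y (g.dir j) u * Complex.I)

/-- the function with the given roots, `z = u + i θ` -/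
def F (z : ℂ) : ℂ :=
  g.c z.re * Complex.exp (g.q * (z.im * Complex.I)) *
    ∏ j, (Complex.exp (z.im * Complex.I) - g.root j z.re)

/-- the angles from the directions -/
def X (z : ℂ) (k : Fin g.d) : ℝ := z.im - g.y k z.re

/-- the speeds of the directions -/
def v (u : ℝ) (k : Fin g.d) : ℝ := deriv (g.y k) u

/-- the accelerations of the directions -/
def w (u : ℝ) (k : Fin g.d) : ℝ := deriv (deriv (g.y k)) u

def e (u : ℝ) (j : Fin g.N) : ℝ := g.η j u

/-- the logarithmic derivatives of the distances -/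
def m (u : ℝ) (j : Fin g.N) : ℝ := deriv (g.η j) u / g.η j u

def l (u : ℝ) (j : Fin g.N) : ℝ := deriv (fun u => deriv (g.η j) u / g.η j u) u

/-- the angular component of the field -/
def b (z : ℂ) : ℝ := bb g.dir (g.X z) (g.v z.re) (g.e z.re) (g.m z.re)

def ξ (z : ℂ) : ℝ := xi g.dir (g.X z) (g.e z.re)

/-- the two fields (`t = κ` and `t = -κ`) -/
def W (t : ℝ) (z : ℂ) : ℂ := ((1 + t * g.ξ z : ℝ) : ℂ) * (1 + g.b z * Complex.I)

/-- regular configurations on `J` -/
structure Reg (J : Set ℝ) : Prop where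
  y : ∀ k, ContDiffOn ℝ 3 (g.y k) J
  η : ∀ j, ContDiffOn ℝ 3 (g.η j) J
  c : ContDiffOn ℝ 3 g.c J
  c0 : ∀ u ∈ J, g.c u ≠ 0
  η0 : ∀ j, ∀ u ∈ J, 0 < g.η j u
  η1 : ∀ j, ∀ u ∈ J, g.η j u < 1
  s : ∀ j, g.s j = 1 ∨ g.s j = -1
  ne : ∀ i k, i ≠ k → ∀ u ∈ J, cos (g.y i u - g.y k u) ≠ 1

/-- the bounds at `u` -/
def Bd (u κ : ℝ) : Prop :=
  (∀ θ : ℝ, Jt g.dir (fun k => θ - g.y k u) (g.v u) (g.w u) (g.e u) (g.m u) (g.l u) κ) ∧
    |(deriv g.c u / g.c u).im| ≤ κ

/-- the size of the configuration -/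
def M : ℝ := (g.N + 1) * (g.d + 1)

/-- the constant -/
def CM : ℝ := 100 * (|(g.q : ℝ)| + 1) * g.M ^ 3

end Cfg

/-- The rate of rotation, relative to the direction field `F`, of the tangent direction `exp (iφ)`
which is transported by the field `W` (coordinates `z = u + i θ`, so the direction of the plane
field is `exp (-z) F z`). -/
def Kf (F W : ℂ → ℂ) (z : ℂ) (φ : ℝ) : ℝ :=
  (fderiv ℝ W z (Complex.exp (φ * Complex.I)) * Complex.exp (-(φ * Complex.I))).im -
    (fderiv ℝ F z (W z) / F z).im + (W z).im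

/-- admissible fields of displacement: `C¹` and periodic over `J`, moving to the right over `U` -/
structure Mv (W : ℂ → ℂ) (J U : Set ℝ) : Prop where
  per : ∀ z, W (z + 2 * π * Complex.I) = W z
  c1 : ContDiffOn ℝ 1 W {z | z.re ∈ J}
  lo : ∀ z, z.re ∈ U → 1 / 2 ≤ (W z).re

/-! ### Algebraic functions of `exp u` -/

/-- `f` is an algebraic function of `exp u` on `J`, with bounds for the degrees -/
def Alg (D : ℕ) (J : Set ℝ) (f : ℝ → ℂ) : Prop :=
  ∃ A : ℂ[X][X], A ≠ 0 ∧ A.natDegree ≤ D ∧ (∀ i, (A.coeff i).natDegree ≤ D) ∧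
    ∀ u ∈ J, (A.map (Polynomial.evalRingHom (Real.exp u : ℂ))).eval (f u) = 0

/-- the value of a polynomial in two variables at `(exp u, t)` -/
def ev (A : ℂ[X][X]) (u : ℝ) (t : ℂ) : ℂ :=
  (A.map (Polynomial.evalRingHom (Real.exp u : ℂ))).eval t

/-- smooth, and the first derivatives up to the order `3` have constant signs -/
def Tame (f : ℝ → ℝ) (J : Set ℝ) : Prop :=
  ContDiffOn ℝ 4 f J ∧ ∀ l ≤ 3, (∀ u ∈ J, iteratedDeriv l f u = 0) ∨
    (∀ u ∈ J, 0 < iteratedDeriv l f u) ∨ (∀ u ∈ J, iteratedDeriv l f u < 0)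

end

end Pool.Agent.Q62.UM
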