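import Pool.Agent.Q62.UM.Cfg

/-! Project UM: elementary inequalities for the weights. -/

open Real Set MeasureTheory Topology Filter
open scoped ENNReal

namespace Pool.Agent.Q62.UM

lemma Hf_eq (x : ℝ) : Hf x = 4 * sin (x / 2) ^ 2 := by
  unfold Hf
  have h : cos x = 1 - 2 * sin (x / 2) ^ 2 := by
    have h1 := cos_two_mul (x / 2)
    rw [show 2 * (x / 2) = x by ring] at h1
    have h2 := sin_sq_add_cos_sq (x / 2)
    nlinarith
  rw [h]; ring

lemma Hf_nonneg (x : ℝ) : 0 ≤ Hf x := by rw [Hf_eq]; positivity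

lemma Hf_le (x : ℝ) : Hf x ≤ 4 := by
  unfold Hf
  linarith [neg_one_le_cos x]

lemma Hf_neg (x : ℝ) : Hf (-x) = Hf x := by unfold Hf; rw [cos_neg]

lemma Hf_sub_comm (x y : ℝ) : Hf (x - y) = Hf (y - x) := by rw [← Hf_neg, neg_sub]

lemma sin_sq_le_Hf (x : ℝ) : sin x ^ 2 ≤ Hf x := by
  unfold Hf
  nlinarith [sin_sq_add_cos_sq x, sq_nonneg (1 - cos x)]

lemma abs_sin_le (x : ℝ) : |sin x| ≤ √(Hf x) := by
  apply le_sqrt_of_sq_le
  rw [sq_abs]
  exact sin_sq_le_Hf x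

lemma sqrt_Hf (x : ℝ) : √(Hf x) = 2 * |sin (x / 2)| := by
  rw [Hf_eq, show 4 * sin (x / 2) ^ 2 = (2 * |sin (x / 2)|) ^ 2 by rw [mul_pow, sq_abs]; ring,
    sqrt_sq (by positivity)]

lemma sqrt_Hf_le (x : ℝ) : √(Hf x) ≤ 2 := by
  rw [sqrt_Hf]
  linarith [abs_sin_le_one (x / 2)]

/-- the triangle inequality for chords -/
lemma sqrt_Hf_sub (x y : ℝ) : √(Hf (x - y)) ≤ √(Hf x) + √(Hf y) := by
  rw [sqrt_Hf, sqrt_Hf, sqrt_Hf, show (x - y) / 2 = x / 2 - y / 2 by ring, sin_sub]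
  have h1 := abs_sub (sin (x / 2) * cos (y / 2)) (cos (x / 2) * sin (y / 2))
  rw [abs_mul, abs_mul] at h1
  have h2 := abs_cos_le_one (x / 2)
  have h3 := abs_cos_le_one (y / 2)
  have h4 := abs_nonneg (sin (x / 2))
  have h5 := abs_nonneg (sin (y / 2))
  nlinarith

lemma sqrt_add_le' {a b : ℝ} (ha : 0 ≤ a) (hb : 0 ≤ b) : √(a + b) ≤ √a + √b := by
  rw [Real.sqrt_le_left (by positivity)]
  nlinarith [sq_sqrt ha, sq_sqrt hb, sqrt_nonneg a, sqrt_nonneg b]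

/-- the triangle inequality for square roots of chords -/
lemma r4_Hf_sub (x y : ℝ) : √(√(Hf (x - y))) ≤ √(√(Hf x)) + √(√(Hf y)) :=
  (sqrt_le_sqrt (sqrt_Hf_sub x y)).trans (sqrt_add_le' (sqrt_nonneg _) (sqrt_nonneg _))

lemma Hf_sub_le (x y : ℝ) : Hf (x - y) ≤ 2 * Hf x + 2 * Hf y := by
  have h := sqrt_Hf_sub x y
  have h1 := sq_sqrt (Hf_nonneg (x - y))
  have h2 := sq_sqrt (Hf_nonneg x)
  have h3 := sq_sqrt (Hf_nonneg y)
  have h4 := sqrt_nonneg (Hf (x - y))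
  nlinarith [sq_nonneg (√(Hf x) - √(Hf y)), sqrt_nonneg (Hf x), sqrt_nonneg (Hf y)]

variable {d N : ℕ} {x : Fin d → ℝ}

lemma den_nonneg (x : Fin d → ℝ) : 0 ≤ den x := by
  unfold den
  have h1 : 0 ≤ ∏ i, Hf (x i) := Finset.prod_nonneg fun i _ => Hf_nonneg _
  have h2 : 0 ≤ ∑ l, ∏ i ∈ Finset.univ.erase l, Hf (x i) :=
    Finset.sum_nonneg fun l _ => Finset.prod_nonneg fun i _ => Hf_nonneg _
  linarith

lemma lam_nonneg (x : Fin d → ℝ) (k : Fin d) : 0 ≤ lam x k :=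
  div_nonneg (Finset.prod_nonneg fun i _ => Hf_nonneg _) (den_nonneg x)

lemma sum_lam_le (x : Fin d → ℝ) : ∑ k, lam x k ≤ 1 := by
  unfold lam
  rw [← Finset.sum_div]
  rcases (den_nonneg x).eq_or_lt with h | h
  · rw [← h, div_zero]
    exact zero_le_one
  · rw [div_le_one h]
    unfold den
    have h1 : 0 ≤ ∏ i, Hf (x i) := Finset.prod_nonneg fun i _ => Hf_nonneg _
    linarith

lemma lam_le_one (x : Fin d → ℝ) (k : Fin d) : lam x k ≤ 1 :=
  (Finset.single_le_sum (f := lam x) (fun i _ => lam_nonneg x i) (Finset.mem_univ k)).trans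
    (sum_lam_le x)

/-- the denominator `1 + ∑ 1 / H` -/
noncomputable def dn (x : Fin d → ℝ) : ℝ := 1 + ∑ i, (Hf (x i))⁻¹

lemma dn_ge (h : ∀ k, 0 < Hf (x k)) : 1 ≤ dn x := by
  unfold dn
  have : 0 ≤ ∑ i, (Hf (x i))⁻¹ := Finset.sum_nonneg fun i _ => (inv_pos.2 (h i)).le
  linarith

lemma inv_le_dn (h : ∀ k, 0 < Hf (x k)) (k : Fin d) : (Hf (x k))⁻¹ ≤ dn x := by
  unfold dn
  have := Finset.single_le_sum (f := fun i => (Hf (x i))⁻¹) (fun i _ => (inv_pos.2 (h i)).le)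
    (Finset.mem_univ k)
  linarith

lemma lam_eq (h : ∀ k, 0 < Hf (x k)) (k : Fin d) : lam x k = (Hf (x k))⁻¹ / dn x := by
  have hP : 0 < ∏ i, Hf (x i) := Finset.prod_pos fun i _ => h i
  have he : ∀ l, ∏ i ∈ Finset.univ.erase l, Hf (x i) = (∏ i, Hf (x i)) * (Hf (x l))⁻¹ := by
    intro l
    rw [← Finset.mul_prod_erase Finset.univ (fun i => Hf (x i)) (Finset.mem_univ l)]
    have := (h l).ne'
    field_simp
  unfold lam den dn
  simp only [he]
  rw [← Finset.mul_sum]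
  have : ∏ i, Hf (x i) + (∏ i, Hf (x i)) * ∑ i, (Hf (x i))⁻¹ =
      (∏ i, Hf (x i)) * (1 + ∑ i, (Hf (x i))⁻¹) := by ring
  rw [this, mul_div_mul_left _ _ hP.ne']

/-- `1 - ∑ lam = 1 / dn` -/
lemma one_sub_sum (h : ∀ k, 0 < Hf (x k)) : 1 - ∑ k, lam x k = 1 / dn x := by
  have h1 : ∑ k, lam x k = (∑ k, (Hf (x k))⁻¹) / dn x := by
    rw [Finset.sum_div]
    exact Finset.sum_congr rfl fun k _ => lam_eq h k
  have h2 : dn x ≠ 0 := (lt_of_lt_of_le one_pos (dn_ge h)).ne'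
  have h3 : ∑ i, (Hf (x i))⁻¹ = dn x - 1 := by unfold dn; ring
  rw [h1, h3, eq_div_iff h2, sub_mul, div_mul_cancel₀ _ h2]
  ring

lemma one_sub_sum_le (h : ∀ k, 0 < Hf (x k)) (k : Fin d) : 1 - ∑ k, lam x k ≤ Hf (x k) := by
  rw [one_sub_sum h, div_le_iff₀ (lt_of_lt_of_le one_pos (dn_ge h))]
  have := mul_le_mul_of_nonneg_left (inv_le_dn h k) (h k).le
  rwa [mul_inv_cancel₀ (h k).ne'] at this

lemma lam_mul (h : ∀ k, 0 < Hf (x k)) (i k : Fin d) : lam x i * Hf (x i) ≤ Hf (x k) := by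
  rw [lam_eq h]
  have h2 := (lt_of_lt_of_le one_pos (dn_ge h))
  have : (Hf (x i))⁻¹ / dn x * Hf (x i) = 1 / dn x := by
    have := (h i).ne'
    field_simp
  rw [this, ← one_sub_sum h]
  exact one_sub_sum_le h k

lemma lam_sqrt (h : ∀ k, 0 < Hf (x k)) (i k : Fin d) :
    lam x i * √(Hf (x i)) ≤ √(Hf (x k)) := by
  have h0 := lam_nonneg x i
  have h1 := lam_le_one x i
  have hi := sq_sqrt (h i).le
  have hk := sq_sqrt (h k).le
  have pi := sqrt_pos.2 (h i)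
  have pk := sqrt_pos.2 (h k)
  rcases le_total (√(Hf (x i))) (√(Hf (x k))) with h2 | h2
  · nlinarith
  · have h3 := lam_mul h i k
    have h4 : lam x i * √(Hf (x i)) * √(Hf (x i)) ≤ √(Hf (x k)) * √(Hf (x i)) := by
      calc lam x i * √(Hf (x i)) * √(Hf (x i)) = lam x i * Hf (x i) := by
            rw [mul_assoc, mul_self_sqrt (h i).le]
        _ ≤ Hf (x k) := h3
        _ = √(Hf (x k)) * √(Hf (x k)) := (mul_self_sqrt (h k).le).symm
        _ ≤ √(Hf (x k)) * √(Hf (x i)) := mul_le_mul_of_nonneg_left h2 pk.le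
    exact le_of_mul_le_mul_right h4 pi

lemma lam_r4 (h : ∀ k, 0 < Hf (x k)) (i k : Fin d) :
    lam x i * √(√(Hf (x i))) ≤ √(√(Hf (x k))) := by
  have h0 := lam_nonneg x i
  have h1 := lam_le_one x i
  have pi := sqrt_pos.2 (sqrt_pos.2 (h i))
  have pk := sqrt_pos.2 (sqrt_pos.2 (h k))
  rcases le_total (√(√(Hf (x i)))) (√(√(Hf (x k)))) with h2 | h2
  · nlinarith
  · have h3 := lam_sqrt h i k
    have h4 : lam x i * √(√(Hf (x i))) * √(√(Hf (x i))) ≤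
        √(√(Hf (x k))) * √(√(Hf (x i))) := by
      calc lam x i * √(√(Hf (x i))) * √(√(Hf (x i))) = lam x i * √(Hf (x i)) := by
            rw [mul_assoc, mul_self_sqrt (sqrt_nonneg _)]
        _ ≤ √(Hf (x k)) := h3
        _ = √(√(Hf (x k))) * √(√(Hf (x k))) := (mul_self_sqrt (sqrt_nonneg _)).symm
        _ ≤ _ := mul_le_mul_of_nonneg_left h2 pk.le
    exact le_of_mul_le_mul_right h4 pi

lemma Lam_le (h : ∀ k, 0 < Hf (x k)) (k : Fin d) : |Lam x| ≤ d * √(Hf (x k)) := by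
  unfold Lam
  refine (Finset.abs_sum_le_sum_abs _ _).trans ?_
  have : ∀ i ∈ (Finset.univ : Finset (Fin d)), |lam x i * sin (x i)| ≤ √(Hf (x k)) := by
    intro i _
    rw [abs_mul, abs_of_nonneg (lam_nonneg x i)]
    exact (mul_le_mul_of_nonneg_left (abs_sin_le _) (lam_nonneg x i)).trans (lam_sqrt h i k)
  refine (Finset.sum_le_sum this).trans ?_
  rw [Finset.sum_const, nsmul_eq_mul, Finset.card_univ, Fintype.card_fin]

variable {dir : Fin N → Fin d} {e : Fin N → ℝ}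

lemma aa_nonneg (he : ∀ j, 0 < e j) (j : Fin N) : 0 ≤ aa dir x e j :=
  div_nonneg (he j).le (add_nonneg (sq_nonneg _) (Hf_nonneg _))

lemma aa_pos (he : ∀ j, 0 < e j) (j : Fin N) : 0 < aa dir x e j :=
  div_pos (he j) (add_pos_of_pos_of_nonneg (pow_pos (he j) 2) (Hf_nonneg _))

lemma sum_aa_nonneg (he : ∀ j, 0 < e j) : 0 ≤ ∑ j, aa dir x e j :=
  Finset.sum_nonneg fun j _ => aa_nonneg he j

lemma aa_le_sum (he : ∀ j, 0 < e j) (j : Fin N) : aa dir x e j ≤ ∑ i, aa dir x e i :=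
  Finset.single_le_sum (f := aa dir x e) (fun i _ => aa_nonneg he i) (Finset.mem_univ j)

/-- `a / (1 + ∑ a) ≤ e / (e + H)` -/
lemma aq_le (he : ∀ j, 0 < e j) (j : Fin N) :
    aa dir x e j / (1 + ∑ i, aa dir x e i) ≤ e j / (e j + Hf (x (dir j))) := by
  have h0 := aa_nonneg (x := x) (dir := dir) he j
  have h1 := aa_le_sum (x := x) (dir := dir) he j
  have h2 : aa dir x e j / (1 + ∑ i, aa dir x e i) ≤ aa dir x e j / (1 + aa dir x e j) :=
    div_le_div_of_nonneg_left h0 (by linarith) (by linarith)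
  refine h2.trans ?_
  have hH := Hf_nonneg (x (dir j))
  have hej := he j
  have h3 : aa dir x e j / (1 + aa dir x e j) = e j / (e j ^ 2 + Hf (x (dir j)) + e j) := by
    unfold aa
    have : 0 < e j ^ 2 + Hf (x (dir j)) := by positivity
    field_simp
  rw [h3]
  exact div_le_div_of_nonneg_left hej.le (by positivity) (by nlinarith)

lemma aq_le_one (he : ∀ j, 0 < e j) (j : Fin N) :
    aa dir x e j / (1 + ∑ i, aa dir x e i) ≤ 1 := by
  rw [div_le_one (by have := sum_aa_nonneg (x := x) (dir := dir) he; linarith)]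
  have h1 := aa_le_sum (x := x) (dir := dir) he j
  linarith

lemma aa_mul_sqrt_le (he : ∀ j, 0 < e j) (j : Fin N) :
    aa dir x e j * √(Hf (x (dir j))) ≤ 1 / 2 := by
  unfold aa
  have hH := sq_sqrt (Hf_nonneg (x (dir j)))
  have hej := he j
  rw [div_mul_eq_mul_div, div_le_iff₀ (by have := Hf_nonneg (x (dir j)); positivity)]
  nlinarith [sq_nonneg (e j - √(Hf (x (dir j))))]

lemma aa_mul_H_le (he : ∀ j, 0 < e j) (j : Fin N) :
    aa dir x e j * Hf (x (dir j)) ≤ e j := by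
  unfold aa
  have hH := Hf_nonneg (x (dir j))
  have hej := he j
  rw [div_mul_eq_mul_div, div_le_iff₀ (by positivity)]
  nlinarith [mul_pos hej hej, mul_pos (mul_pos hej hej) hej]

/-- `e √H / (e + H) ≤ √e / 2` -/
lemma k1_le {e H : ℝ} (he : 0 < e) (hH : 0 ≤ H) : e / (e + H) * √H ≤ √e / 2 := by
  have h1 := sq_sqrt he.le
  have h2 := sq_sqrt hH
  rw [div_mul_eq_mul_div, div_le_iff₀ (by positivity)]
  have h3 : e = √e * √e := (mul_self_sqrt he.le).symm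
  nlinarith [sq_nonneg (√e - √H), sqrt_nonneg e, sqrt_nonneg H,
    mul_nonneg (sqrt_nonneg e) (sq_nonneg (√e - √H))]

/-- `e H^(1/4) / (e + H) ≤ e^(1/4)` -/
lemma k2_le {e H : ℝ} (he : 0 < e) (hH : 0 ≤ H) : e / (e + H) * √(√H) ≤ √(√e) := by
  have pe := sqrt_pos.2 (sqrt_pos.2 he)
  have pH := sqrt_nonneg (√H)
  obtain ⟨a, ha⟩ : ∃ a, a = √(√e) := ⟨_, rfl⟩
  obtain ⟨b, hb⟩ : ∃ b, b = √(√H) := ⟨_, rfl⟩
  have e1 : e = a ^ 4 := by
    rw [ha, show (4:ℕ) = 2 * 2 from rfl, pow_mul, sq_sqrt (sqrt_nonneg _), sq_sqrt he.le]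
  have e2 : H = b ^ 4 := by
    rw [hb, show (4:ℕ) = 2 * 2 from rfl, pow_mul, sq_sqrt (sqrt_nonneg _), sq_sqrt hH]
  rw [← ha, ← hb]
  rw [← ha] at pe
  rw [← hb] at pH
  rw [e1, e2, div_mul_eq_mul_div, div_le_iff₀ (by positivity)]
  have h1 : a ^ 3 * b ≤ a ^ 4 + b ^ 4 := by
    rcases le_total a b with h | h
    · have : a ^ 3 * b ≤ b ^ 3 * b := mul_le_mul_of_nonneg_right (pow_le_pow_left₀ pe.le h 3) pH
      nlinarith [pow_pos pe 4]
    · have : a ^ 3 * b ≤ a ^ 3 * a := mul_le_mul_of_nonneg_left h (by positivity)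
      nlinarith [pow_nonneg pH 4]
  calc a ^ 4 * b = a * (a ^ 3 * b) := by ring
    _ ≤ a * (a ^ 4 + b ^ 4) := mul_le_mul_of_nonneg_left h1 pe.le

/-- `(e / (e + H))² ≤ √e K`, `K = √e / (e + H)` -/
lemma k3_le {e H : ℝ} (he : 0 < e) (hH : 0 ≤ H) :
    (e / (e + H)) ^ 2 ≤ √e * (√e / (e + H)) := by
  rw [← mul_div_assoc, mul_self_sqrt he.le, div_pow, div_le_div_iff₀ (by positivity) (by positivity)]
  nlinarith [mul_nonneg he.le hH, mul_nonneg (mul_nonneg he.le hH) hH,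
    mul_nonneg (mul_nonneg he.le he.le) hH]

end Pool.Agent.Q62.UM
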