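import Pool.Agent.Q62.UM.Cfg

/-! Project UM, statements of the groups D (algebraic functions of `exp u`), R (roots) and P (pieces
of monotonicity). Everything is elementary; `ev A u t` is the value at `(exp u, t)` of the polynomial
`A` (inner variable `r = exp u`, outer variable `t`). -/

open Real Set MeasureTheory Topology Filter
open scoped ENNReal Polynomial

namespace Pool.Agent.Q62.UM

noncomputable section

/-! ### Group D -/

/-- **D1 (sums and products).** Dimension count. Let `A`, `B` be the polynomials of `f`, `g`, of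
degrees `d₁, d₂ ≤ D` in the outer variable, `α, β ∈ ℂ[r]` their leading coefficients (not zero, of
degree at most `D`). If `d₁ = 0` or `d₂ = 0` then `α` (or `β`) vanishes at all `exp u`, `u ∈ J`, and
this constant polynomial does it. Otherwise, on `J`: for all `i`, `α^i f^i` is a combination of the
functions `r^a f^i'` with `i' < d₁`, `a ≤ i D` (induction: multiply by `α f` and replace `α f^d₁` by
`- ∑_{l < d₁} A_l f^l`); the same for `g`. Let `E = 3 D³`. For `a, l ≤ E` the function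
`α^E β^E r^a Ψ^l`, `Ψ = f g` or `f + g` (binomial formula), is a combination of the
`r^b f^i g^j`, `i < d₁`, `j < d₂`, `b ≤ E + 2 E D`; these are at most `D² (E + 2 E D + 1) < (E + 1)²`
functions, so there is a nonzero `C` of degree at most `E` in both variables with
`α^E β^E C (r, Ψ) = 0` on `J`, hence `α β C (r, Ψ) = 0` on `J`; `α β C` has degree at most
`E + 2 D ≤ 5 D³` in `r` and `≤ E` in the outer variable. -/
def S_D1 : Prop := ∀ (D : ℕ) (J : Set ℝ) (f g : ℝ → ℂ), 1 ≤ D → Alg D J f → Alg D J g →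
  Alg (5 * D ^ 3) J (fun u => f u + g u) ∧ Alg (5 * D ^ 3) J (fun u => f u * g u)

/-- **DU (polynomials in one algebraic function).** As D1: with `E = 3 e D²`, `α^(e E) r^a Ψ^l`,
`Ψ = ev P u (f u)`, `a, l ≤ E`, is a combination of the `r^b f^i`, `i < d₁`, `b ≤ E + e E + e E D`,
at most `D (E + e E + e E D + 1) ≤ D (E + 1) (1 + e + e D) < (E + 1)²` functions. The polynomial
`α C` has degree at most `3 e D² + D ≤ 4 e D²`. -/
def S_DU : Prop := ∀ (D e : ℕ) (J : Set ℝ) (f : ℝ → ℂ) (P : ℂ[X][X]), 1 ≤ D → 1 ≤ e →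
  P.natDegree ≤ e → (∀ i, (P.coeff i).natDegree ≤ e) → Alg D J f →
  Alg (4 * e * D ^ 2) J (fun u => ev P u (f u))

/-- **D2 (simple operations).** Conjugate the coefficients; replace `A (r, t)` by `A (r, t²)`; reverse
the polynomial (`t^D A (r, 1/t)`); `t - c`; `t - r`; trivial; trivial; a polynomial in `r`. -/
def S_D2 : Prop :=
  (∀ (D : ℕ) (J : Set ℝ) (f : ℝ → ℂ), Alg D J f → Alg D J (fun u => (starRingEnd ℂ) (f u))) ∧
  (∀ (D : ℕ) (J : Set ℝ) (f : ℝ → ℂ), Alg D J (fun u => f u ^ 2) → Alg (2 * D) J f) ∧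
  (∀ (D : ℕ) (J : Set ℝ) (f : ℝ → ℂ), Alg D J f → (∀ u ∈ J, f u ≠ 0) →
    Alg D J (fun u => (f u)⁻¹)) ∧
  (∀ (J : Set ℝ) (c : ℂ), Alg 1 J (fun _ => c)) ∧
  (∀ J : Set ℝ, Alg 1 J (fun u => (Real.exp u : ℂ))) ∧
  (∀ (D D' : ℕ) (J J' : Set ℝ) (f : ℝ → ℂ), D ≤ D' → J' ⊆ J → Alg D J f → Alg D' J' f) ∧
  (∀ (D : ℕ) (J : Set ℝ) (f g : ℝ → ℂ), (∀ u ∈ J, f u = g u) → Alg D J f → Alg D J g) ∧
  (∀ (D : ℕ) (J : Set ℝ) (B : ℂ[X]), B.natDegree ≤ D →
    Alg (max D 1) J (fun u => B.eval (Real.exp u : ℂ)))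

/-- **D3 (zeros).** A continuous algebraic function on an interval vanishes identically or nowhere on
each interval which avoids at most `D` points. Proof: write `A = t^k A₁` with `A₁ (r, 0) ≠ 0` (a
nonzero polynomial in `r` of degree at most `D`), `Z = {u | A₁ (exp u, 0) = 0}`. If `u ∈ I` is a limit
of points of `I` where `f ≠ 0`, hence `A₁ (exp, f) = 0`, and `f u = 0`, then `u ∈ Z` by continuity. So
the zero set of `f` in `I` is open and closed in the connected set `I`. -/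
def S_D3 : Prop := ∀ (D : ℕ) (J : Set ℝ) (f : ℝ → ℂ), OI J → ContinuousOn f J → Alg D J f →
  ∃ Z : Finset ℝ, Z.card ≤ D ∧ ∀ I, OI I → I ⊆ J → Disjoint I (Z : Set ℝ) →
    (∀ u ∈ I, f u = 0) ∨ (∀ u ∈ I, f u ≠ 0)

/-- **D4 (derivatives).** A continuous real algebraic function is smooth and its derivatives of order
`≤ 3` have constant signs, off at most `80 D⁴` points. (To be proved as `theorem t_D4 (hu : S_DU)
(h3 : S_D3) : S_D4`.)

Proof. Let `A ≠ 0` be the polynomial of `f`, `g_k = ev (∂_t^k A) u (f u)`, `k = 0, …, D`. For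
`k = 1, …, D` put `B = ∂_t^(k-1) A`, `B_t = ∂_t^k A`, `B_r` the derivative with respect to `r` and
`Φ₁ = - r B_r`, `Φ_{l+1} = (r ∂_r Φ_l B_t - r B_r ∂_t Φ_l) B_t - (2 l - 1) Φ_l (r B_{tr} B_t - r B_{tt}
B_r)`, polynomials of degree at most `(2 l - 1) D` in both variables. By DU and D3 the functions
`g_k` (degree `4 D³`) and `ev Φ_{k,l} u (f u)`, `l = 1, 2, 3` (degree `20 D³`), and `f` vanish
identically or nowhere on each open interval `I ⊆ J` which avoids a set `Z` of at most `(D + 1) 4 D³ +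
3 D · 20 D³ + D ≤ 80 D⁴` points. Let `I ≠ ∅` be such an interval. Not all `g_k` vanish identically on
`I` (otherwise all coefficients of `A` vanish at the infinitely many `exp u`), and `g_0 = 0`, so there
is `k ≥ 1` with `g_{k-1} = 0` on `I` and `g_k ≠ 0` everywhere on `I`. So `ev B u (f u) = 0`,
`ev B_t u (f u) ≠ 0`. Write `B (r', t') - B (r, t) = (r' - r) B₁ (r', r, t') + (t' - t) B₂ (r, t, t')`
with polynomials, `B₁ (r, r, t) = B_r`, `B₂ (r, t, t) = B_t`: as `f` is continuous, it is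
differentiable with `f' = - r B_r / B_t` at `(exp u, f u)`. Hence `f` is `C^∞` on `I` (bootstrap), and by
induction `f^(l) = Φ_l / B_t^(2 l - 1)`. So `f^(l)` vanishes identically or nowhere on `I`; being
continuous and real it has a constant sign. -/
def S_D4 : Prop := ∀ (D : ℕ) (J : Set ℝ) (f : ℝ → ℝ), 1 ≤ D → OI J → ContinuousOn f J →
  Alg D J (fun u => (f u : ℂ)) →
  ∃ Z : Finset ℝ, Z.card ≤ 80 * D ^ 4 ∧ ∀ I, OI I → I ⊆ J → Disjoint I (Z : Set ℝ) → Tame f I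

/-- **D6 (refinement).** The complement of `Z₀` has at most `card Z₀ + 1` components, namely
`{u | ∀ z ∈ Z₀, u < z}` and `{u | a < u ∧ ∀ z ∈ Z₀, a < z → u < z}`, `a ∈ Z₀`; every interval which
avoids `Z₀` lies in one of them. Take the union of `Z₀` and of the sets `Z` of the nonempty
components. -/
def S_D6 : Prop := ∀ (P : Set ℝ → Prop) (Z₀ : Finset ℝ) (m : ℕ),
  (∀ I, OI I → I.Nonempty → Disjoint I (Z₀ : Set ℝ) → ∃ Z : Finset ℝ, Z.card ≤ m ∧
    ∀ J, OI J → J.Nonempty → J ⊆ I → Disjoint J (Z : Set ℝ) → P J) →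
  ∃ Z : Finset ℝ, Z.card ≤ Z₀.card + (Z₀.card + 1) * m ∧
    ∀ J, OI J → J.Nonempty → Disjoint J (Z : Set ℝ) → P J

/-! ### Group R -/

/-- the polynomial field at the point `p + exp z` as a complex number -/
def FF (P Q : MvPolynomial (Fin 2) ℝ) (p : ℝ × ℝ) (z : ℂ) : ℂ :=
  (MvPolynomial.eval ![p.1 + Real.exp z.re * cos z.im, p.2 + Real.exp z.re * sin z.im] P : ℝ) +
    (MvPolynomial.eval ![p.1 + Real.exp z.re * cos z.im, p.2 + Real.exp z.re * sin z.im] Q : ℝ) *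
      Complex.I

/-- **R1.** The trigonometric polynomial as a polynomial in `r = exp u` and `t = exp (i θ)`.
`t x = p₁ t + r (t² + 1) / 2`, `t y = p₂ t + r (t² - 1) / (2 i)`, so for a monomial `x^a y^b` with
`a + b ≤ n`, `t^n x^a y^b = t^(n-a-b) (t x)^a (t y)^b` has degree at most `2 n` in `t` and at most `n`
in `r`. Sum over the monomials. -/
def S_R1 : Prop := ∀ (n : ℕ) (P Q : MvPolynomial (Fin 2) ℝ) (p : ℝ × ℝ), P.totalDegree ≤ n →
  Q.totalDegree ≤ n → ∃ G : ℂ[X][X], G.natDegree ≤ 2 * n ∧ (∀ i, (G.coeff i).natDegree ≤ n) ∧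
    ∀ z : ℂ, FF P Q p z = Complex.exp (-(n * (z.im * Complex.I))) *
      ev G z.re (Complex.exp (z.im * Complex.I))

/-- **RA (squarefree part).** For example: let `R` be the radical of `G` in the factorial ring
`ℂ[r][t]` (or: product of the different irreducible factors of positive degree in `t`), so `R` divides
`G` up to nothing, `R` is squarefree and `G` divides a power of `R` times a nonzero polynomial in `r`
(the content). Degrees of factors are at most those of `G` (both in `t` and in `r`). Common factors of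
`R` and `∂_t R` over `ℂ(r)` come from common factors in `ℂ[r][t]` (Gauss lemma), an irreducible `S` of
positive degree in `t` with `R = S T`, `S ∣ S_t T + S T_t` gives `S ∣ S_t` (impossible by the degree)
or `S ∣ T` (not squarefree). So the resultant of `R` and `∂_t R` with respect to `t` is a nonzero
polynomial in `r`, of degree at most `2 D · D`; it is a combination of `R` and `∂_t R`. `Z` = the `u` with
`exp u` a zero of the resultant, of the leading coefficients of `R`, `G`, or of the content of `G`.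
(If `G` is of degree `0` in `t` take `R = 1`.) -/
def S_RA : Prop := ∀ (D : ℕ) (G : ℂ[X][X]), 1 ≤ D → G ≠ 0 → G.natDegree ≤ D →
  (∀ i, (G.coeff i).natDegree ≤ D) → ∃ (R : ℂ[X][X]) (Z : Finset ℝ), R.natDegree ≤ D ∧
    Z.card ≤ 6 * D ^ 2 ∧ ∀ u ∉ Z, R.leadingCoeff.eval (Real.exp u : ℂ) ≠ 0 ∧
      G.leadingCoeff.eval (Real.exp u : ℂ) ≠ 0 ∧
      (∀ t, ev R u t = 0 → ev R.derivative u t ≠ 0) ∧ (∀ t, ev R u t = 0 ↔ ev G u t = 0)

/-- **RB (branches of simple roots).** If for all `u` in the interval `I` the leading coefficient does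
not vanish and all roots are simple, then the roots are given by `R.natDegree` continuous functions
with different values. (Local branches by the implicit function theorem, or by continuity of simple
roots; there are `R.natDegree` different ones near each point of `I`, so they are all the roots; by
compactness the local branches exist on intervals of uniform length over compact parts of `I`; extend
step by step. Or: the projection of the root set to `I` is a covering.) -/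
def S_RB : Prop := ∀ (R : ℂ[X][X]) (I : Set ℝ), OI I → I.Nonempty →
  (∀ u ∈ I, R.leadingCoeff.eval (Real.exp u : ℂ) ≠ 0) →
  (∀ u ∈ I, ∀ t, ev R u t = 0 → ev R.derivative u t ≠ 0) →
  ∃ σ : Fin R.natDegree → ℝ → ℂ, (∀ i, ContinuousOn (σ i) I) ∧
    (∀ u ∈ I, Function.Injective fun i => σ i u) ∧ ∀ u ∈ I, ∀ t, ev R u t = 0 ↔ ∃ i, σ i u = t

/-- **RC (multiplicities).** If the root set of `G` is given by continuous functions `σ i` with
different values then the multiplicities are constant: `{u ∈ I | multiplicity of σ i u ≥ m}` is closed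
in `I` (`∂_t^k G (exp u, σ i u) = 0` for all `k < m`), and the sum of the multiplicities is the
constant `G.natDegree`; so near a point no multiplicity can become larger, hence none smaller. Repeat
`σ i` according to its multiplicity. -/
def S_RC : Prop := ∀ (G : ℂ[X][X]) (I : Set ℝ) (s : ℕ) (σ : Fin s → ℝ → ℂ), OI I → I.Nonempty →
  (∀ u ∈ I, G.leadingCoeff.eval (Real.exp u : ℂ) ≠ 0) → (∀ i, ContinuousOn (σ i) I) →
  (∀ u ∈ I, Function.Injective fun i => σ i u) → (∀ u ∈ I, ∀ t, ev G u t = 0 ↔ ∃ i, σ i u = t) →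
  ∃ ω : Fin G.natDegree → ℝ → ℂ, (∀ j, ∃ i, ω j = σ i) ∧ ∀ u ∈ I, ∀ t,
    ev G u t = G.leadingCoeff.eval (Real.exp u : ℂ) * ∏ j, (t - ω j u)

/-- **R3 (angles).** Fix `u₀ ∈ J` and `y₀ = arg (ε u₀)`, `y u = y₀ + ∫_{u₀}^u Im (ε' conj ε)`; then
`ε exp (- i y)` has the derivative `0` on `J`. -/
def S_R3 : Prop := ∀ (J : Set ℝ) (ε : ℝ → ℂ), OI J → J.Nonempty → ContDiffOn ℝ 3 ε J →
  (∀ u ∈ J, ‖ε u‖ = 1) → ∃ y : ℝ → ℝ, ContDiffOn ℝ 3 y J ∧
    ∀ u ∈ J, ε u = Complex.exp (y u * Complex.I)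

/-! ### Group P -/

/-- the distance from the circle -/
def et (ρ : ℝ → ℝ) (u : ℝ) : ℝ := |1 - ρ u| / (1 + ρ u)

/-- data of the roots different from zero on an interval -/
structure RD (I : Set ℝ) (D : ℕ) (F : ℂ → ℂ) (N : ℕ) (ρ : Fin N → ℝ → ℝ) (ε : Fin N → ℝ → ℂ)
    (q : ℤ) (c : ℝ → ℂ) : Prop where
  ρc : ∀ j, ContinuousOn (ρ j) I
  εc : ∀ j, ContinuousOn (ε j) I
  cc : ContinuousOn c I
  ρ0 : ∀ j, ∀ u ∈ I, 0 < ρ j u
  ρ1 : ∀ j, ∀ u ∈ I, ρ j u ≠ 1
  ε1 : ∀ j, ∀ u ∈ I, ‖ε j u‖ = 1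
  c0 : ∀ u ∈ I, c u ≠ 0
  ρA : ∀ j, Alg D I (fun u => (ρ j u : ℂ))
  εA : ∀ j, Alg D I (ε j)
  cA : Alg D I c
  F : ∀ z : ℂ, z.re ∈ I → F z = c z.re * Complex.exp (q * (z.im * Complex.I)) *
    ∏ j, (Complex.exp (z.im * Complex.I) - ρ j z.re * ε j z.re)

/-- all functions which we need are tame on `J` -/
structure TD (J : Set ℝ) (N : ℕ) (ρ : Fin N → ℝ → ℝ) (ε : Fin N → ℝ → ℂ) (c : ℝ → ℂ) :
    Prop where
  t1 : ∀ j, Tame (fun u => √(√(et (ρ j) u))) J
  t2 : ∀ j, Tame (fun u => √(et (ρ j) u)) J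
  t3 : ∀ j, Tame (fun u => (ε j u).re) J
  t4 : ∀ j, Tame (fun u => (ε j u).im) J
  t5 : ∀ i j, Tame (fun u => et (ρ i) u - et (ρ j) u) J
  t6 : ∀ i j, Tame (fun u => ‖ε i u - ε j u‖) J
  t7 : ∀ i j, Tame (fun u => √‖ε i u - ε j u‖) J
  t8 : ∀ i j, Tame (fun u => et (ρ j) u / (et (ρ j) u + ‖ε i u - ε j u‖)) J
  t9 : ∀ i j, Tame (fun u => √(et (ρ i) u / et (ρ j) u)) J
  t10 : Tame (fun u => (c u / ‖c u‖).re) J
  t11 : Tame (fun u => (c u / ‖c u‖).im) J
  t12 : Tame (fun u => (c u).re) J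
  t13 : Tame (fun u => (c u).im) J

/-- **PA (roots on intervals).** From D1, D2, D3, D6, R1, RA, RB, RC (to be proved as
`theorem pa (d1 : S_D1) (d2 : S_D2) (d3 : S_D3) (d6 : S_D6) (r1 : S_R1) (ra : S_RA) (rb : S_RB)
(rc : S_RC) : S_PA`). `Zf` contains the real parts of all zeros of `FF P Q p`.

`G` of R1 is not `0` (otherwise `FF = 0` everywhere and `Zf` would contain everything). `Z₀` = `Zf`
together with the set of RA for `D = 2 n` (at most `24 n²` points). On an interval `I` which avoids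
`Z₀` we get continuous root functions `ω j`, `j < L = G.natDegree`, algebraic of degree `2 n` (their
polynomial is `G` itself). By D3 each of them vanishes identically or nowhere off at most `2 n`
points; refine (D6, `m = 4 n²`). Let the `ω j` which do not vanish be `ρ j ε j`, `ρ j = ‖ω j‖`. If
`‖ω j u‖ = 1` then `FF` vanishes at `u + i arg (ω j u)`, so `u ∈ Zf`. `q = - n + ` number of the
vanishing `ω j` (`|q| ≤ n`), `c u` = leading coefficient at `exp u`. Degrees: `‖ω‖² = ω conj ω` has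
`5 (2 n)³ = 40 n³`, `‖ω‖` has `80 n³`, `ε = ω ‖ω‖⁻¹` has `5 (80 n³)³ = 2560000 n⁹`. -/
def S_PA : Prop := ∀ (n : ℕ) (P Q : MvPolynomial (Fin 2) ℝ) (p : ℝ × ℝ) (Zf : Finset ℝ), 1 ≤ n →
  P.totalDegree ≤ n → Q.totalDegree ≤ n → (∀ z, FF P Q p z = 0 → z.re ∈ Zf) →
  ∃ Z : Finset ℝ, Z.card ≤ (Zf.card + 24 * n ^ 2) + (Zf.card + 24 * n ^ 2 + 1) * (4 * n ^ 2) ∧
    ∀ I, OI I → I.Nonempty → Disjoint I (Z : Set ℝ) →
      ∃ (N : ℕ) (ρ : Fin N → ℝ → ℝ) (ε : Fin N → ℝ → ℂ) (q : ℤ) (c : ℝ → ℂ), N ≤ 2 * n ∧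
        |q| ≤ n ∧ RD I (3000000 * n ^ 9) (FF P Q p) N ρ ε q c

/-- the growth of the degree in one operation -/
def Ph (D : ℕ) : ℕ := 10 * D ^ 3

/-- **PB (tameness off few points).** (To be proved as `theorem pb (d1 : S_D1) (d2 : S_D2)
(d4 : S_D4) : S_PB`.) All functions of `TD` are continuous on `I` and algebraic of degree at most
`Ph^[12] D` (each operation - sum, product, inverse, square root, conjugation, constant - multiplies
the degree by at most `Ph`; e.g. `et = ± (1 - ρ) (1 + ρ)⁻¹` with the sign of `1 - ρ`, which is constant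
on the interval `I` as `ρ ≠ 1`; `‖a‖² = a conj a`; real part `= (a + conj a) / 2`). There are at most
`20 (N + 1)²` of them; apply D4 to each. -/
def S_PB : Prop := ∀ (I : Set ℝ) (D : ℕ) (F : ℂ → ℂ) (N : ℕ) (ρ : Fin N → ℝ → ℝ)
  (ε : Fin N → ℝ → ℂ) (q : ℤ) (c : ℝ → ℂ), 1 ≤ D → OI I → RD I D F N ρ ε q c →
  ∃ Z : Finset ℝ, Z.card ≤ 20 * (N + 1) ^ 2 * (80 * (Ph^[12] D) ^ 4) ∧
    ∀ J, OI J → J ⊆ I → Disjoint J (Z : Set ℝ) → TD J N ρ ε c

/-- **P1 (tame bounded functions).** `|q'|` and `|q''|` are continuous and monotone or antitone on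
`J` (the signs of `q'`, `q''`, `q'''` are constant), and `∫ min (|q'|, 1) ≤ 4` (the integral of `|q'|` is
the oscillation of `q`); if, say, `q'' ≥ 0` then `q'` is increasing, at points of distance at least `1`
from the ends of `J` we have `|q'| ≤ 4` (mean value theorem), so the integral of `q''` over this part is
at most `8`, and the rest of `J` has measure at most `2`. -/
def S_P1 : Prop := ∀ (J : Set ℝ) (q : ℝ → ℝ), OI J → Tame q J → (∀ u ∈ J, |q u| ≤ 2) →
  ∀ f : ℝ → ℝ, (f = fun u => |deriv q u|) ∨ (f = fun u => |deriv (deriv q) u|) →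
    ContinuousOn f J ∧ (MonotoneOn f J ∨ AntitoneOn f J) ∧
    ∫⁻ u in J, ENNReal.ofReal (min (f u) 1) ≤ 10

/-- **PS (sums).** `κd` = `c` times the sum of the antitone functions, `κu` = `c` times the sum of the
others; `min (c ∑ f, 1) ≤ c ∑ min (f, 1)` for `c ≥ 1`, `f ≥ 0`. -/
def S_PS : Prop := ∀ (A : Type) (_ : Fintype A) (f : A → ℝ → ℝ) (J : Set ℝ) (c : ℝ), OI J → 1 ≤ c →
  (∀ a, ContinuousOn (f a) J ∧ (∀ u ∈ J, 0 ≤ f a u) ∧ (MonotoneOn (f a) J ∨ AntitoneOn (f a) J) ∧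
    ∫⁻ u in J, ENNReal.ofReal (min (f a u) 1) ≤ 10) →
  ∃ κd κu : ℝ → ℝ, ContinuousOn κd J ∧ ContinuousOn κu J ∧ (∀ u ∈ J, 0 ≤ κd u) ∧
    (∀ u ∈ J, 0 ≤ κu u) ∧ AntitoneOn κd J ∧ MonotoneOn κu J ∧
    (∀ u ∈ J, κd u + κu u = c * ∑ a, f a u) ∧
    ∫⁻ u in J, ENNReal.ofReal (min (κd u) 1) ≤ ENNReal.ofReal (10 * c * Fintype.card A) ∧
    ∫⁻ u in J, ENNReal.ofReal (min (κu u) 1) ≤ ENNReal.ofReal (10 * c * Fintype.card A)

/-- **PH (from the derivatives of the bounded functions to the bounds).** Write `y = √Hf Δ`,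
`Δ = y i - y k`, `w = v i - v k`.
(h1) `v = cos y (sin y)' - sin y (cos y)'`, so `|v| ≤ 2 κ`; (h2) `v' = cos y (sin y)'' - sin y
(cos y)''`, `≤ 2 κ`. (h3) `(√√η)' = m √√η / 4`: `≤ 4 κ`. (h4) `(√η)'' = (m' / 2 + m² / 4) √η`, and
`m² √η ≤ 16 κ²`, so `|m'| √η ≤ 2 κ + 8 κ² ≤ 10 κ`. (h5) `y = 2 |sin (Δ/2)|`, `|y'| = |cos (Δ/2)| |w|`,
`|(√y)'| = |y'| / (2 √y) ≤ κ`, so `|cos (Δ/2)| |w| ≤ 2 κ √y`; `cos² (Δ/2) = 1 - y² / 4`: if `y ≤ 1` then
`|w| ≤ 3 κ √y`, if `y ≥ 1` then `|w| ≤ 4 κ ≤ 4 κ √y`. (h6) `(η / (η + y))' = (η' y - η y') /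
(η + y)²`, and `y = 2 σ sin (Δ/2)` with `σ = ± 1`, `η' y - η y' = σ η (2 m sin (Δ/2) - cos (Δ/2) w)`,
so `η |2 m sin (Δ/2) - cos (Δ/2) w| ≤ κ (η + y)² ≤ 2 κ (η² + y²)`; multiply by `|cos (Δ/2)| ≤ 1`:
`η |m sin Δ - w + w y² / 4| ≤ 2 κ (η² + y²)`, and `η |w| y² / 4 ≤ κ y²`: total `3 κ (η² + y²)`. (For
`i = dir j` both sides of (h6) are trivial.) (h7) `(√(η i / η j))' = (m i - m j) / 2 √(η i / η j)`:
`2 κ`. Last: for the phase `φ = c / ‖c‖`, `φ' conj φ = i Im (c' / c)`, so `|Im (c'/c)| ≤ 2 κ`. All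
bounds hold with `10 κ`; `Jt` for the angles `θ - y k` depends only on the differences. -/
def S_PH : Prop := ∀ (g : Cfg) (J : Set ℝ), IsOpen J → g.Reg J → ∀ (u κ : ℝ), u ∈ J → 0 ≤ κ →
  10 * κ ≤ 1 →
  (∀ k, |deriv (fun u => cos (g.y k u)) u| ≤ κ ∧ |deriv (fun u => sin (g.y k u)) u| ≤ κ ∧
    |deriv (deriv fun u => cos (g.y k u)) u| ≤ κ ∧
    |deriv (deriv fun u => sin (g.y k u)) u| ≤ κ) →
  (∀ j, |deriv (fun u => √(√(g.η j u))) u| ≤ κ ∧ |deriv (deriv fun u => √(g.η j u)) u| ≤ κ) →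
  (∀ i k, i ≠ k → |deriv (fun u => √(√(Hf (g.y i u - g.y k u)))) u| ≤ κ) →
  (∀ j i, i ≠ g.dir j → |deriv (fun u => g.η j u /
    (g.η j u + √(Hf (g.y i u - g.y (g.dir j) u)))) u| ≤ κ) →
  (∀ i j, g.η i u ≤ g.η j u → |deriv (fun u => √(g.η i u / g.η j u)) u| ≤ κ) →
  |deriv (fun u => (g.c u / ‖g.c u‖).re) u| ≤ κ → |deriv (fun u => (g.c u / ‖g.c u‖).im) u| ≤ κ →
  g.Bd u (10 * κ)

/-- the data on a piece -/
def PieceD (n : ℕ) (F : ℂ → ℂ) (J : Set ℝ) (B : ℝ) : Prop :=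
  ∃ g : Cfg, g.N ≤ 2 * n ∧ g.d ≤ 2 * n ∧ |g.q| ≤ n ∧ g.Reg J ∧ (∀ z : ℂ, z.re ∈ J → F z = g.F z) ∧
    ∃ κd κu : ℝ → ℝ, ContinuousOn κd J ∧ ContinuousOn κu J ∧ (∀ u ∈ J, 0 ≤ κd u) ∧
      (∀ u ∈ J, 0 ≤ κu u) ∧ AntitoneOn κd J ∧ MonotoneOn κu J ∧
      ∫⁻ u in J, ENNReal.ofReal (min (κd u) 1) ≤ ENNReal.ofReal B ∧
      ∫⁻ u in J, ENNReal.ofReal (min (κu u) 1) ≤ ENNReal.ofReal B ∧
      ∀ u ∈ J, κd u + κu u ≤ 1 → g.Bd u (κd u + κu u)

/-- **PC (the configuration of a piece).** (To be proved as `theorem pc (r3 : S_R3) (p1 : S_P1)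
(ps : S_PS) (ph : S_PH) : S_PC`.) By `t6` two directions `ε i`, `ε j` are equal everywhere or nowhere
on `J`; this is an equivalence relation. `d` = number of classes (enumerate the classes by `Fin d`,
choose a representative `r k` of the class `k`), `dir j` = class of `j`, `y k` = angle of `ε (r k)`
(R3; the `ε j` are `C⁴` by t3, t4), so `cos (y k) = Re ε`, `sin (y k) = Im ε`,
`√Hf (y i - y k) = ‖ε i - ε k‖` on `J`. `η j = et (ρ j)` (`C⁴` as the square of the function of t2,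
`0 < η < 1`), `s j` = the constant sign of `1 - ρ j` on `J` (connected), `ρ = (1 - s η) / (1 + s η)`.
`g.c = c`. The functions: `cos (y k)`, `sin (y k)` (t3, t4), `√η j`, `√√η j`, `√‖ε i - ε j‖` (t7),
`η j / (η j + ‖ε i - ε j‖)` (t8), `√(η i / η j)` for the pairs with `η i ≤ η j` on `J` (by t5 one of
`η i ≤ η j`, `η j < η i` holds on all of `J`; for the other pairs take the function `0`), real and
imaginary part of the phase (t10, t11): all bounded by `2`, tame, at most `5 (N + 1)²` functions `q`.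
Take `|q'|`, `|q''|` for each of them (P1), and PS with `c = 10`: at a point where `κd + κu =
10 ∑ f ≤ 1`, PH holds with `κ = ∑ f`. (Functions which agree on the open set `J` have the same
derivatives there.) Bound: `10 · 10 · 10 (N + 1)² ≤ 1000 (2 n + 1)²`. -/
def S_PC : Prop := ∀ (n : ℕ) (J : Set ℝ) (D : ℕ) (F : ℂ → ℂ) (N : ℕ) (ρ : Fin N → ℝ → ℝ)
  (ε : Fin N → ℝ → ℂ) (q : ℤ) (c : ℝ → ℂ), OI J → J.Nonempty → N ≤ 2 * n → |q| ≤ n →
  RD J D F N ρ ε q c → TD J N ρ ε c → PieceD n F J (1000 * (2 * n + 1) ^ 2)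

end

end Pool.Agent.Q62.UM
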