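import Pool.Agent.Q62.UM.Orb

/-! Project UM, statements of the groups T (touching) and A (measure). Library: `Cur`, `Wn`, `min_ne`,
`max_ne` in `Pool/Agent/Q62/HU/Wind.lean`, `wg`, `open_touch`, `touch` in `Touch.lean`, `mn`, `mx` and the
analogous argument for dilations in `Pair.lean`, `cnt`, `maj_lip`, `maj_single` in `Count.lean`,
`Class.lean` (sums of classes), `Maj`, `majRules` in `Pool/Agent/H709Q`, `Z1aux.maj_mono`,
`Z1aux.maj_sum`. -/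

open Real Set MeasureTheory Topology Filter
open scoped ENNReal

namespace Pool.Agent.Q62.UM

noncomputable section

open Pool.Agent.H709R2 (rot wedge field ClosedOrbit)
open Pool.Agent.H709U Pool.Agent.Q62.HU
open Pool.Agent.H709Q (Maj majRules)

/-- **T1 (touching).** The curve `exp M` is moved by `exp (M + τ W (M))`; if it meets `b` for
`τ = τ₁` but not for `τ = 0`, then for some `0 < τ₀ ≤ τ₁` the curves are tangent at a common point.
Proof: exactly as `touch` / `open_touch` in `Pool/Agent/Q62/HU/Touch.lean`. The set of the `(s, τ)`,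
`s ∈ [0, T]`, `0 ≤ τ ≤ τ₁` with `exp (M s + τ W (M s)) ∈ range b` is compact (the moved curve is
periodic in `s` with period `T`, as `W` is `2 π i`-periodic); take the point with the smallest `τ`,
`τ₀ > 0`. If the two tangent vectors `(M' + τ₀ DW M')` (times the common value) and `b'` were
independent then `(s, t, τ) ↦ (b t - exp (M s + τ W (M s)), τ)` would have a surjective strict
derivative, so the curves would also meet for all `τ` near `τ₀`. (`W` is `C¹`, so strictly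
differentiable, on the open strip.) `b' t / b t`: both tangent vectors are divided by the common point,
which multiplies `wg` by a positive number. -/
def S_T1 : Prop := ∀ (M M' : ℝ → ℂ) (T : ℝ) (k : ℤ) (W : ℂ → ℂ) (J : Set ℝ) (b b' : ℝ → ℂ) (S : ℝ),
  IsOpen J → 0 < T → (∀ t, HasDerivAt M (M' t) t) → Continuous M' →
  (∀ t, M (t + T) = M t + k * (2 * π * Complex.I)) → (∀ t, (M t).re ∈ J) →
  ContDiffOn ℝ 1 W {z | z.re ∈ J} → (∀ z, W (z + 2 * π * Complex.I) = W z) → Cur b b' S →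
  (∀ s t, Complex.exp (M s) ≠ b t) → ∀ τ₁ : ℝ, 0 < τ₁ →
  (∃ s t, Complex.exp (M s + τ₁ * W (M s)) = b t) →
  ∃ τ₀ : ℝ, 0 < τ₀ ∧ τ₀ ≤ τ₁ ∧ ∃ s t, Complex.exp (M s + τ₀ * W (M s)) = b t ∧
    wg (M' s + τ₀ * fderiv ℝ W (M s) (M' s)) (b' t / b t) = 0

/-- **T2 (meeting).** `Re W ≥ 1/2` on the curve, so the inner radius of the moved curve grows at least
like `exp (τ / 2)`. `G τ = min over s of Re (M s + τ W (M s))` (a minimum over `[0, T]`, continuous in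
`τ`), `G 0 = (M s₀).re < B = log ‖b t₀‖` and `G τ ≥ G 0 + τ / 2`; by the intermediate value theorem
`G τ₁ = B` for some `0 < τ₁ ≤ 2 (B - G 0)`. The curve `exp (M + τ₁ W (M))` is a `Cur` with period `T`
(derivative `exp (..) (M' + τ₁ DW M')`), its winding integral about `0` is
`(M + τ₁ W M) (T) - (M + τ₁ W M) (0) = 2 π i k ≠ 0`, and its smallest norm is `exp B = ‖b t₀‖`; if it did
not meet `b` this would contradict `min_ne`. The second part is the same with maxima and `max_ne`. -/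
def S_T2 : Prop := ∀ (M M' : ℝ → ℂ) (T : ℝ) (k : ℤ) (W : ℂ → ℂ) (J : Set ℝ) (b b' : ℝ → ℂ) (S : ℝ),
  IsOpen J → 0 < T → (∀ t, HasDerivAt M (M' t) t) → Continuous M' →
  (∀ t, M (t + T) = M t + k * (2 * π * Complex.I)) → k ≠ 0 → (∀ t, (M t).re ∈ J) →
  ContDiffOn ℝ 1 W {z | z.re ∈ J} → (∀ z, W (z + 2 * π * Complex.I) = W z) →
  (∀ t, 1 / 2 ≤ (W (M t)).re) → Cur b b' S → (0:ℂ) ∉ range b → Wn b b' S 0 ≠ 0 →
  (∀ s₀ t₀, (∀ s, (M s₀).re ≤ (M s).re) → (∀ t, ‖b t₀‖ ≤ ‖b t‖) → (M s₀).re < log ‖b t₀‖ →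
    ∃ τ₁ : ℝ, 0 < τ₁ ∧ τ₁ ≤ 2 * (log ‖b t₀‖ - (M s₀).re) ∧
      ∃ s t, Complex.exp (M s + τ₁ * W (M s)) = b t) ∧
  (∀ s₀ t₀, (∀ s, (M s).re ≤ (M s₀).re) → (∀ t, ‖b t‖ ≤ ‖b t₀‖) → (M s₀).re < log ‖b t₀‖ →
    ∃ τ₁ : ℝ, 0 < τ₁ ∧ τ₁ ≤ 2 * (log ‖b t₀‖ - (M s₀).re) ∧
      ∃ s t, Complex.exp (M s + τ₁ * W (M s)) = b t)

/-- **T3 (first order expansion, uniform on compact sets).** The tangency condition says that
`(1 + τ X) · (F z / F (z + τ W z)) · exp (τ W z) · exp (i (α - β))` is real, where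
`X = fderiv W z (exp (iφ)) exp (-iφ)` (write `exp (iφ) = ρ exp (iα) F z exp (-z)`, and
`wg a b = Im (conj a b)`; multiply by positive numbers only). Let `Q` be the product without
`exp (i (α - β))`. Uniformly for `z.re ∈ [a, b]`, all `φ`, and `0 < τ ≤ δ` with `(z + τ W z).re ∈ [a, b]`:
`Q = 1 + τ (X - fderiv F z (W z) / F z + W z) + o(τ)` (by periodicity `z` can be taken in the compact
set `[a, b] × [0, 2π]`; `F`, `W` are `C¹`, the segment from `z` to `z + τ W z` lies over `[a, b]` and `W`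
is bounded there, so this segment stays in a compact set, where `fderiv F` is uniformly continuous
and `|F|` is bounded from below), and `Im (X - ... + W z) = Kf F W z φ`. For small `δ` we have
`Re Q > 0`, and `Im (Q exp (-i (β - α))) = 0` with `|β - α| ≤ π / 2` gives
`β - α = arctan (Im Q / Re Q) = τ Kf + o(τ)`. -/
def S_T3 : Prop := ∀ (F W : ℂ → ℂ) (J : Set ℝ), OI J → ContDiffOn ℝ 1 F {z | z.re ∈ J} →
  ContDiffOn ℝ 1 W {z | z.re ∈ J} → (∀ z, F (z + 2 * π * Complex.I) = F z) →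
  (∀ z, W (z + 2 * π * Complex.I) = W z) → (∀ z, z.re ∈ J → F z ≠ 0) → ∀ a b, Icc a b ⊆ J →
  ∀ ε > 0, ∃ δ > 0, ∀ (z : ℂ) (φ α β τ : ℝ), z.re ∈ Icc a b → 0 < τ → τ ≤ δ →
    (z + τ * W z).re ∈ Icc a b → |β - α| ≤ π / 2 →
    (∃ ρ : ℝ, 0 < ρ ∧ Complex.exp (φ * Complex.I) =
      ρ * (Complex.exp (α * Complex.I) * F z * Complex.exp (-z))) →
    wg (Complex.exp (φ * Complex.I) + τ * fderiv ℝ W z (Complex.exp (φ * Complex.I)))
      (Complex.exp (β * Complex.I) * F (z + τ * W z) * Complex.exp (-(z + τ * W z))) = 0 →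
    |β - α - τ * Kf F W z φ| ≤ ε * τ

/-- **T4 (two closed orbits).** (To be proved as `theorem t_T4 (t1 : S_T1) (t2 : S_T2) (t3 : S_T3) :
S_T4`.) The angle of the closed orbit is locally a Lipschitz function of its inner radius and of its
outer radius, with a constant close to `2 B`.

Proof. `exists_cu` and `CU.lift` (in `Orb.lean`) give the curves `γ = p + exp M` of `C`, and
`δ` of `C'`, `b = ec (δ - p)`, which winds around `0`. They are disjoint (`orb_disjoint` in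
`HU/Zone.lean`), hence `mn` and `mx` differ (`min_ne`, `max_ne`; see `pair_min`, `pair_max` in
`HU/Pair.lean`). Let `mn p C < mn p C'`. T2 with `W = Wp` (resp. `Wm`) gives a meeting at
`τ₁ ≤ 2 (mn p C' - mn p C)` and T1 a tangency at `0 < τ₀ ≤ τ₁`, at the point `z = M s`, with
`(z + τ₀ W z).re = lg p (δ t) ∈ [a, b]`, where `M' s = exp (iα) F z exp (-z) = |M' s| exp (iφ)`, and
`b' t / b t = exp (iβ) F (z + τ₀ W z) exp (-(z + τ₀ W z))` (`F = FX X p` is `2 π i`-periodic and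
`exp (z + τ₀ W z) = δ t - p`, so `pt p` of this number is `δ t`). By T3, if `2 (mn p C' - mn p C)` is
smaller than the `δ` of T3 (for `Wp` and `Wm`): `β - α ≤ τ₀ (B + ε) ≤ 2 (B + ε) (mn p C' - mn p C)` from
`Wp`, and `β - α ≥ - τ₀' (B + ε)` from `Wm`. The same with the outer radii. -/
def S_T4 : Prop := ∀ (X : ℝ × ℝ → ℝ × ℝ) (p : ℝ × ℝ) (J U : Set ℝ) (Wp Wm : ℂ → ℂ) (B : ℝ),
  ContDiff ℝ 2 X → OI J → (∀ z, z ≠ p → lg p z ∈ J → X z ≠ 0) → U ⊆ J → 0 ≤ B →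
  Mv Wp J U → Mv Wm J U → (∀ (z : ℂ) (φ : ℝ), z.re ∈ U → Kf (FX X p) Wp z φ ≤ B) →
  (∀ (z : ℂ) (φ : ℝ), z.re ∈ U → -B ≤ Kf (FX X p) Wm z φ) → ∀ a b, Icc a b ⊆ U → ∀ ε > 0,
  ∃ δ > 0, ∀ (α β : ℝ) (C C' : Set (ℝ × ℝ)), |β - α| ≤ π / 2 → ZU X p (Icc a b) α C →
    ZU X p (Icc a b) β C' → C ≠ C' →
    mn p C ≠ mn p C' ∧ mx p C ≠ mx p C' ∧
    (mn p C < mn p C' → mn p C' - mn p C < δ → |β - α| ≤ 2 * (B + ε) * (mn p C' - mn p C)) ∧
    (mx p C < mx p C' → mx p C' - mx p C < δ → |β - α| ≤ 2 * (B + ε) * (mx p C' - mx p C))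

/-- **A1 (locally Lipschitz families).** Split `[a, a + ℓ]` into at most `ℓ / h + 1` pieces of length
`h < δ`, `h ≤ 1`; on each of them `maj_lip` (in `HU/Count.lean`) with the parameter `f / h` and the
constant `K h` gives `K h`. Sum: `K (ℓ + h) ≤ K ℓ + η` for small `h`. -/
def S_A1 : Prop := ∀ (ι : Type) (Ang : Set ℝ) (F : ℝ → Set ι) (f : ι → ℝ) (K a ℓ η : ℝ), 0 ≤ K →
  0 ≤ ℓ → 0 < η →
  (∃ δ > 0, ∀ α ∈ Ang, ∀ β ∈ Ang, ∀ C ∈ F α, ∀ C' ∈ F β, C ≠ C' →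
    f C ≠ f C' ∧ (|f C' - f C| < δ → |β - α| ≤ K * |f C' - f C|)) →
  (∀ α ∈ Ang, ∀ β ∈ Ang, ∀ C ∈ F α, C ∈ F β → α = β) →
  (∀ α ∈ Ang, ∀ C ∈ F α, f C ∈ Icc a (a + ℓ)) → Maj (cnt Ang F) (K * ℓ + η)

/-- **A2 (families on a piece).** (To be proved as `theorem t_A2 (a1 : S_A1) : S_A2`.)
Put `κ_k = κ₀ / 2^k`. Let `K_i = {u | |u| ≤ i, Icc (u - 1/(i+1)) (u + 1/(i+1)) ⊆ J}`, compact intervals
(or empty) increasing to `J`; the families `F_i` of the members with `Icc (mn C) (mx C) ⊆ K_i` increase to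
`F` (`majRules`: increasing unions keep the bound), so it suffices to bound each `F_i`. Classes of `F_i`:
`A_k`: `κd (mn C) ≤ κ_k`, `κu (mx C) ≤ κ_k`, `κ_k / 2 < κd (mn C)`; `B_k`: the same with
`κ_k / 2 < κu (mx C)` instead; and the class `Z`: `κd (mn C) = 0 = κu (mx C)`. They cover `F_i` (take the
largest `k` with `κd (mn C) ≤ κ_k`, `κu (mx C) ≤ κ_k`). All members of these classes have
`Icc (mn C) (mx C) ⊆ {κd ≤ κ_k, κu ≤ κ_k} ∩ K_i` (monotonicity), a compact interval (or empty), so the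
pair hypothesis applies with `κ = κ_k`, any `ε`. The values `mn C`, `C ∈ A_k`, lie in
`E_k = {u ∈ J | κ_k / 2 < κd u ≤ κ_k}`, an interval of length `ℓ_k` with `(κ_k / 2) ℓ_k ≤ I_k`,
`I_k = ∫_{E_k} min (κd, 1)`, `∑ I_k ≤ I` (disjoint sets). A1 with `K = 2 (C₀ κ_k + ε)`, `ε`, `η` small:
`A_k` has the bound `2 C₀ κ_k ℓ_k + 2^(-k) ≤ 4 C₀ I_k + 2^(-k)`. The same for `B_k` with `mx`. For the
class `Z` (values `mn C` in the bounded set `K_i`): `K = 2 (C₀ κ + ε)` with arbitrarily small `κ`, `ε`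
gives the bound `1`. Total: `8 C₀ I + 4 + 1`. -/
def S_A2 : Prop := ∀ (ι : Type) (Ang : Set ℝ) (F : ℝ → Set ι) (mn mx : ι → ℝ) (J : Set ℝ)
  (κd κu : ℝ → ℝ) (C₀ κ₀ I : ℝ), OI J → 0 ≤ C₀ → 0 < κ₀ → κ₀ ≤ 1 → 0 ≤ I → ContinuousOn κd J →
  ContinuousOn κu J → (∀ u ∈ J, 0 ≤ κd u) → (∀ u ∈ J, 0 ≤ κu u) → AntitoneOn κd J →
  MonotoneOn κu J → ∫⁻ u in J, ENNReal.ofReal (min (κd u) 1) ≤ ENNReal.ofReal I →
  ∫⁻ u in J, ENNReal.ofReal (min (κu u) 1) ≤ ENNReal.ofReal I →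
  (∀ α ∈ Ang, ∀ C ∈ F α, mn C ≤ mx C ∧ Icc (mn C) (mx C) ⊆ {u | u ∈ J ∧ κd u ≤ κ₀ ∧ κu u ≤ κ₀}) →
  (∀ α ∈ Ang, ∀ β ∈ Ang, ∀ C ∈ F α, C ∈ F β → α = β) →
  (∀ κ, 0 < κ → κ ≤ κ₀ → ∀ a b, Icc a b ⊆ {u | u ∈ J ∧ κd u ≤ κ ∧ κu u ≤ κ} → ∀ ε > 0,
    ∃ δ > 0, ∀ α ∈ Ang, ∀ β ∈ Ang, ∀ C ∈ F α, ∀ C' ∈ F β, C ≠ C' →
      Icc (mn C) (mx C) ⊆ Icc a b → Icc (mn C') (mx C') ⊆ Icc a b →
      mn C ≠ mn C' ∧ mx C ≠ mx C' ∧
      (mn C < mn C' → mn C' - mn C < δ → |β - α| ≤ 2 * (C₀ * κ + ε) * (mn C' - mn C)) ∧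
      (mx C < mx C' → mx C' - mx C < δ → |β - α| ≤ 2 * (C₀ * κ + ε) * (mx C' - mx C))) →
  Maj (cnt Ang F) (16 * C₀ * I + 8)

/-- **A3 (windows).** The set `{u ∈ J | κ₀ < κd u}` is an interval (`κd` is antitone), and `κ₀` times its
length is at most `∫ min (κd, 1) ≤ I`; so it is bounded, contained in a closed interval of length
`I / κ₀`, and covered by `I / κ₀ + 1` intervals `[e, e + 1]` (`unit_cover` in `HU/Cor.lean`, or prove
it). The same for `κu`. -/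
def S_A3 : Prop := ∀ (J : Set ℝ) (κd κu : ℝ → ℝ) (κ₀ I : ℝ), OI J → 0 < κ₀ → κ₀ ≤ 1 → 0 ≤ I →
  ContinuousOn κd J → ContinuousOn κu J → (∀ u ∈ J, 0 ≤ κd u) → (∀ u ∈ J, 0 ≤ κu u) →
  AntitoneOn κd J → MonotoneOn κu J →
  ∫⁻ u in J, ENNReal.ofReal (min (κd u) 1) ≤ ENNReal.ofReal I →
  ∫⁻ u in J, ENNReal.ofReal (min (κu u) 1) ≤ ENNReal.ofReal I →
  ∃ E : Finset ℝ, (E.card : ℝ) ≤ 2 * (I / κ₀ + 1) ∧
    ∀ u ∈ J, (∀ e ∈ E, u ∉ Icc e (e + 1)) → κd u ≤ κ₀ ∧ κu u ≤ κ₀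

/-- **CF (common factors).** A closed orbit of the rotated field `h X₀` is a closed orbit of the
rotated field `X₀`. `h ≠ 0` on the orbit (a solution through a zero of the field is constant; library
`ne_zero` in `W960/HP`), so `h` has a constant sign on it (connected). New time: `s t = ∫_0^t h (γ)`, strictly
monotone, `s (t + T) = s t + s T`, surjective, `γ (s⁻¹)` solves the field `X₀`, with period `|s T|`. -/
def S_CF : Prop := ∀ (h P₀ Q₀ : MvPolynomial (Fin 2) ℝ) (α : ℝ) (C : Set (ℝ × ℝ)),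
  ClosedOrbit (rf (field (h * P₀) (h * Q₀)) α) C → ClosedOrbit (rf (field P₀ Q₀) α) C

end

end Pool.Agent.Q62.UM
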