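import Pool.Agent.Q62.UM.Stm1
import Pool.Agent.Q62.UM.Stm2
import Pool.Agent.Q62.UM.Stm3
import Pool.Agent.Q62.HU.Main

/-! Project UM: assembly, one piece. -/

open Real Set MeasureTheory Topology Filter
open scoped ENNReal

namespace Pool.Agent.Q62.UM

noncomputable section

open Pool.Agent.H709R2 (rot wedge field ClosedOrbit)
open Pool.Agent.H709U Pool.Agent.Q62.HU
open Pool.Agent.H709Q (Maj majRules)

/-! ### Constants -/

def CMn (n : ℕ) : ℝ := 100 * (n + 1) * ((2 * n + 1) ^ 2) ^ 3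

def k0 (n : ℕ) : ℝ := 1 / (4 * CMn n)

def C0 (n : ℕ) : ℝ := 32 * CMn n ^ 2

def In (n : ℕ) : ℝ := 1000 * (2 * n + 1) ^ 2

def BJ (n : ℕ) : ℝ := 2 * (16 * C0 n * In n + 8) + 8000 * (n + 1) * (2 * (In n / k0 n + 1))

lemma CMn_ge (n : ℕ) : 1 ≤ CMn n := by
  unfold CMn
  have h0 : (0:ℝ) ≤ n := Nat.cast_nonneg n
  have h1 : (1:ℝ) ≤ ((2 * n + 1) ^ 2) ^ 3 := one_le_pow₀ (one_le_pow₀ (by linarith))
  nlinarith

lemma k0_pos (n : ℕ) : 0 < k0 n := by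
  have := CMn_ge n
  unfold k0
  positivity

lemma k0_le (n : ℕ) : k0 n ≤ 1 := by
  have := CMn_ge n
  unfold k0
  rw [div_le_one (by positivity)]
  linarith

lemma C0_nonneg (n : ℕ) : 0 ≤ C0 n := by unfold C0; positivity

lemma In_nonneg (n : ℕ) : 0 ≤ In n := by unfold In; positivity

lemma BJ_nonneg (n : ℕ) : 0 ≤ BJ n := by
  have h1 := C0_nonneg n
  have h2 := In_nonneg n
  have h3 := k0_pos n
  unfold BJ
  positivity

lemma CM_le {n : ℕ} {g : Cfg} (hN : g.N ≤ 2 * n) (hd : g.d ≤ 2 * n) (hq : |g.q| ≤ n) :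
    0 ≤ g.CM ∧ g.CM ≤ CMn n := by
  have h1 : (g.N : ℝ) ≤ 2 * n := by exact_mod_cast hN
  have h2 : (g.d : ℝ) ≤ 2 * n := by exact_mod_cast hd
  have h3 : |(g.q : ℝ)| ≤ n := by exact_mod_cast hq
  have h4 : (0:ℝ) ≤ g.N := Nat.cast_nonneg _
  have h5 : (0:ℝ) ≤ g.d := Nat.cast_nonneg _
  unfold Cfg.CM CMn Cfg.M
  refine ⟨by positivity, ?_⟩
  have h6 : ((g.N : ℝ) + 1) * (g.d + 1) ≤ (2 * n + 1) ^ 2 := by
    rw [sq]
    exact mul_le_mul (by linarith) (by linarith) (by linarith) (by linarith)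
  have h7 : (((g.N : ℝ) + 1) * (g.d + 1)) ^ 3 ≤ ((2 * n + 1) ^ 2) ^ 3 :=
    pow_le_pow_left₀ (by positivity) h6 3
  exact mul_le_mul (by linarith) h7 (by positivity) (by positivity)

/-! ### Monotonicity in `κ` -/

lemma Jt.mono {d N : ℕ} {dir : Fin N → Fin d} {x v w : Fin d → ℝ} {e m l : Fin N → ℝ} {κ κ' : ℝ}
    (h : Jt dir x v w e m l κ) (hκ : κ ≤ κ') (h1 : κ' ≤ 1) : Jt dir x v w e m l κ' where
  k0 := h.k0.trans hκ
  k1 := h1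
  e0 := h.e0
  e1 := h.e1
  h1 k := (h.h1 k).trans hκ
  h2 k := (h.h2 k).trans hκ
  h3 j := (h.h3 j).trans hκ
  h4 j := (h.h4 j).trans hκ
  h5 i k := (h.h5 i k).trans (mul_le_mul_of_nonneg_right hκ (sqrt_nonneg _))
  h6 j i := (h.h6 j i).trans (mul_le_mul_of_nonneg_right hκ
    (add_nonneg (sq_nonneg _) (Hf_nonneg _)))
  h7 i j hij := (h.h7 i j hij).trans (mul_le_mul_of_nonneg_right hκ (sqrt_nonneg _))

lemma Bd_mono {g : Cfg} {u κ κ' : ℝ} (h : g.Bd u κ) (hκ : κ ≤ κ') (h1 : κ' ≤ 1) : g.Bd u κ' :=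
  ⟨fun θ => (h.1 θ).mono hκ h1, h.2.trans hκ⟩

/-! ### The field in complex coordinates -/

lemma FF_eq (P Q : MvPolynomial (Fin 2) ℝ) (p : ℝ × ℝ) (z : ℂ) :
    FF P Q p z = FX (field P Q) p z := by
  unfold FF FX
  refine Complex.ext ?_ ?_
  · rw [ec_re]
    simp [field, pt]
  · rw [ec_im]
    simp [field, pt]

lemma Kf_congr {F G : ℂ → ℂ} {J : Set ℝ} (hJ : IsOpen J) (h : ∀ z : ℂ, z.re ∈ J → F z = G z)
    (W : ℂ → ℂ) {z : ℂ} (hz : z.re ∈ J) (φ : ℝ) : Kf F W z φ = Kf G W z φ := by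
  have h1 : F =ᶠ[𝓝 z] G := by
    filter_upwards [(hJ.preimage Complex.continuous_re).mem_nhds hz] with w hw
    exact h w hw
  unfold Kf
  rw [h1.fderiv_eq, h z hz]

/-- the pair estimate on a piece -/
theorem pair_piece (sf : S_SF) (sm : S_SM) (t4 : S_T4) {n : ℕ} {P Q : MvPolynomial (Fin 2) ℝ}
    {p : ℝ × ℝ} {J : Set ℝ} (hJ : OI J) {g : Cfg} (hN : g.N ≤ 2 * n) (hd : g.d ≤ 2 * n)
    (hq : |g.q| ≤ n) (hR : g.Reg J) (hF : ∀ z : ℂ, z.re ∈ J → FF P Q p z = g.F z)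
    {κd κu : ℝ → ℝ} (hB : ∀ u ∈ J, κd u + κu u ≤ 1 → g.Bd u (κd u + κu u)) :
    (∀ z, z ≠ p → lg p z ∈ J → field P Q z ≠ 0) ∧
    ∀ κ, 0 < κ → κ ≤ k0 n → ∀ a b, Icc a b ⊆ {u | u ∈ J ∧ κd u ≤ κ ∧ κu u ≤ κ} → ∀ ε > 0,
      ∃ δ > 0, ∀ (α β : ℝ) (C C' : Set (ℝ × ℝ)), |β - α| ≤ π / 2 →
        ZU (field P Q) p (Icc a b) α C → ZU (field P Q) p (Icc a b) β C' → C ≠ C' →
        mn p C ≠ mn p C' ∧ mx p C ≠ mx p C' ∧
        (mn p C < mn p C' → mn p C' - mn p C < δ →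
          |β - α| ≤ 2 * (C0 n * κ + ε) * (mn p C' - mn p C)) ∧
        (mx p C < mx p C' → mx p C' - mx p C < δ →
          |β - α| ≤ 2 * (C0 n * κ + ε) * (mx p C' - mx p C)) := by
  obtain ⟨-, -, -, hF0, -⟩ := sm g J hJ.1 hR
  have hz : ∀ z, z ≠ p → lg p z ∈ J → field P Q z ≠ 0 := by
    intro z hz hzJ h0
    obtain ⟨t, ht⟩ := exists_pt hz
    obtain ⟨w, hw⟩ : ∃ w : ℂ, w = ⟨lg p z, t⟩ := ⟨_, rfl⟩
    have h1 : w.re = lg p z := by rw [hw]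
    have h2 : w.im = t := by rw [hw]
    have h3 : FF P Q p w = 0 := by
      rw [FF_eq]
      unfold FX
      rw [h1, h2, ← ht, h0, map_zero]
    rw [hF w (by rw [h1]; exact hzJ)] at h3
    exact hF0 w (by rw [h1]; exact hzJ) h3
  refine ⟨hz, fun κ hκ hκ0 a b hab ε hε => ?_⟩
  obtain ⟨hC0, hC⟩ := CM_le hN hd hq
  have hCn := CMn_ge n
  have h4 : 4 * CMn n * κ ≤ 1 := by
    unfold k0 at hκ0
    rw [le_div_iff₀ (by positivity)] at hκ0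
    linarith
  have h2κ : 2 * κ ≤ 1 := by nlinarith
  have hCκ : g.CM * (2 * κ) ≤ 1 / 2 := by nlinarith
  obtain ⟨m1, m2, b1, b2⟩ := sf g J {u | u ∈ J ∧ κd u ≤ κ ∧ κu u ≤ κ} (2 * κ) hJ.1 hR
    (fun u hu => hu.1) (by linarith) hCκ (fun u hu =>
      Bd_mono (hB u hu.1 (by linarith [hu.2.1, hu.2.2])) (by linarith [hu.2.1, hu.2.2]) h2κ)
  have hle : 16 * g.CM ^ 2 * (2 * κ) ≤ C0 n * κ := by
    unfold C0
    have : g.CM ^ 2 ≤ CMn n ^ 2 := pow_le_pow_left₀ hC0 hC 2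
    nlinarith
  have hK : ∀ (W : ℂ → ℂ) (z : ℂ) (φ : ℝ), z.re ∈ J →
      Kf (FX (field P Q) p) W z φ = Kf g.F W z φ := fun W z φ hzJ =>
    Kf_congr hJ.1 (fun w hw => by rw [← FF_eq]; exact hF w hw) W hzJ φ
  refine t4 (field P Q) p J {u | u ∈ J ∧ κd u ≤ κ ∧ κu u ≤ κ} (g.W (2 * κ)) (g.W (-(2 * κ)))
    (C0 n * κ) (H709R2.contDiff_field P Q) hJ hz (fun u hu => hu.1)
    (mul_nonneg (C0_nonneg n) hκ.le) m1 m2 ?_ ?_ a b hab ε hε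
  · intro z φ hzU
    rw [hK _ _ _ hzU.1]
    exact (b1 z φ hzU).trans hle
  · intro z φ hzU
    rw [hK _ _ _ hzU.1]
    exact le_trans (by linarith) (b2 z φ hzU)

/-- the image of a closed orbit under the logarithm of the distance is an interval -/
lemma icc_eq {X : ℝ × ℝ → ℝ × ℝ} {p : ℝ × ℝ} {α : ℝ} {C : Set (ℝ × ℝ)} {γ : ℝ → ℝ × ℝ} {T : ℝ}
    (h : CU X p α C γ T) : mn p C ≤ mx p C ∧ (∀ u ∈ Icc (mn p C) (mx p C), ∃ z ∈ C, lg p z = u) ∧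
      ∀ z ∈ C, lg p z ∈ Icc (mn p C) (mx p C) := by
  obtain ⟨t₀, h0, hmn⟩ := h.lo
  obtain ⟨t₁, h1, hmx⟩ := h.hi
  have hγ := orb_cont h.orb
  have hc : Continuous fun t => lg p (γ t) := by
    unfold lg H709R2.sq
    refine Continuous.div_const ?_ _
    refine Continuous.log (by fun_prop) fun t => ?_
    exact (H709R2.sq_pos (sub_ne_zero.2 (h.ne t))).ne'
  have hI : (range fun t => lg p (γ t)).OrdConnected := (isPreconnected_range hc).ordConnected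
  refine ⟨(hmn t₁).trans (hmx t₁), fun u hu => ?_, fun z hz => ?_⟩
  · rw [← h0, ← h1] at hu
    obtain ⟨t, ht⟩ := hI.out ⟨t₀, rfl⟩ ⟨t₁, rfl⟩ hu
    exact ⟨γ t, by rw [h.rg]; exact ⟨t, rfl⟩, ht⟩
  · rw [h.rg] at hz
    obtain ⟨t, rfl⟩ := hz
    exact ⟨hmn t, hmx t⟩

/-- **One piece.** -/
theorem maj_piece (sf : S_SF) (sm : S_SM) (t4 : S_T4) (a2 : S_A2) (a3 : S_A3) {n : ℕ}
    {P Q : MvPolynomial (Fin 2) ℝ} (hP : P.totalDegree ≤ n) (hQ : Q.totalDegree ≤ n)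
    {p : ℝ × ℝ} {J : Set ℝ} (hJ : OI J) (hD : PieceD n (FF P Q p) J (In n)) :
    Maj (fun α => ({C | C ∈ Cl P Q α ∧ InBox p C ∧ p ∉ C ∧ ∀ z ∈ C, lg p z ∈ J}.encard : ℝ≥0∞))
      (BJ n) := by
  classical
  obtain ⟨g, hN, hd, hq, hR, hF, κd, κu, c1, c2, p1, p2, ma, mo, i1, i2, hB⟩ := hD
  obtain ⟨hz, hpair⟩ := pair_piece sf sm t4 hJ hN hd hq hR hF hB
  have hπ := Real.pi_pos
  -- the good orbits
  set U : Set ℝ := {u | u ∈ J ∧ κd u ≤ k0 n ∧ κu u ≤ k0 n} with hU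
  set G : ℝ → Set (Set (ℝ × ℝ)) := fun α => {C | ZU (field P Q) p U α C} with hG
  have hcu : ∀ α C, C ∈ G α → ∃ γ T, CU (field P Q) p α C γ T := fun α C hC =>
    exists_cu (H709R2.contDiff_field P Q) (fun z hz' hzU => hz z hz' hzU.1) hC
  have key : ∀ Ang : Set ℝ, (∀ α ∈ Ang, ∀ β ∈ Ang, |β - α| ≤ π / 2) →
      Maj (cnt Ang G) (16 * C0 n * In n + 8) := by
    intro Ang hAng
    refine a2 (Set (ℝ × ℝ)) Ang G (mn p) (mx p) J κd κu (C0 n) (k0 n) (In n) hJ (C0_nonneg n)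
      (k0_pos n) (k0_le n) (In_nonneg n) c1 c2 p1 p2 ma mo i1 i2 ?_ ?_ ?_
    · intro α _ C hC
      obtain ⟨γ, T, h⟩ := hcu α C hC
      obtain ⟨h1, h2, -⟩ := icc_eq h
      refine ⟨h1, fun u hu => ?_⟩
      obtain ⟨z, hzC, rfl⟩ := h2 u hu
      exact hC.mem z hzC
    · intro α hα β hβ C hC hC'
      exact ang_unique (hAng α hα β hβ) hC.orb hC'.orb
    · intro κ hκ hκ0 a b hab ε hε
      obtain ⟨δ, hδ, h⟩ := hpair κ hκ hκ0 a b hab ε hε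
      refine ⟨δ, hδ, fun α hα β hβ C hC C' hC' hne hI hI' => ?_⟩
      obtain ⟨γ, T, h3⟩ := hcu α C hC
      obtain ⟨γ', T', h3'⟩ := hcu β C' hC'
      exact h α β C C' (hAng α hα β hβ) ⟨hC.orb, hC.np, fun z hz => hI ((icc_eq h3).2.2 z hz)⟩
        ⟨hC'.orb, hC'.np, fun z hz => hI' ((icc_eq h3').2.2 z hz)⟩ hne
  have h1 := key (Ioc 0 (π / 2)) (fun α hα β hβ => by
    rw [abs_le]
    constructor <;> linarith [hα.1, hα.2, hβ.1, hβ.2])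
  have h2 := key (Ioo (π / 2) π) (fun α hα β hβ => by
    rw [abs_le]
    constructor <;> linarith [hα.1, hα.2, hβ.1, hβ.2])
  have hb0 : 0 ≤ 16 * C0 n * In n + 8 := by
    have := C0_nonneg n
    have := In_nonneg n
    positivity
  have h3 := majRules.2.1 _ _ _ _ hb0 hb0 h1 h2
  -- the windows
  obtain ⟨E, hE, hE'⟩ := a3 J κd κu (k0 n) (In n) hJ (k0_pos n) (k0_le n) (In_nonneg n) c1 c2 p1 p2
    ma mo i1 i2
  set HS : ℝ → ℝ → Set (Set (ℝ × ℝ)) := fun v α => {C | C ∈ Cl P Q α ∧ InBox p C ∧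
    p ∉ C ∧ ∃ z ∈ C, v ≤ lg p z ∧ lg p z ≤ v + 1} with hHS
  have hcover : ∀ α, {C | C ∈ Cl P Q α ∧ InBox p C ∧ p ∉ C ∧ ∀ z ∈ C, lg p z ∈ J} ⊆
      G α ∪ ⋃ e ∈ E, HS e α := by
    rintro α C ⟨hC, hbox, hpC, hCJ⟩
    by_cases hcase : ∀ z ∈ C, ∀ e ∈ E, lg p z ∉ Icc e (e + 1)
    · left
      exact ⟨hC, hpC, fun z hz => ⟨hCJ z hz, hE' _ (hCJ z hz) (hcase z hz)⟩⟩
    · right
      push Not at hcase
      obtain ⟨z, hz, e, he, hle⟩ := hcase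
      simp only [mem_iUnion]
      exact ⟨e, he, hC, hbox, hpC, z, hz, hle.1, hle.2⟩
  have h8 : (0 : ℝ) ≤ 8000 * (n + 1) := by positivity
  have hM1 : Maj (fun α => ∑ e ∈ E, ((HS e α).encard : ℝ≥0∞))
      (∑ e ∈ E, (8000 * ((n : ℝ) + 1))) :=
    Z1aux.maj_sum _ _ _ (fun _ _ => h8) fun e _ => h4' n P Q hP hQ p _
  have hM := majRules.2.1 _ _ _ _ (add_nonneg hb0 hb0) (Finset.sum_nonneg fun _ _ => h8) h3 hM1
  refine Z1aux.maj_mono (fun α hα => ?_) ?_ hM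
  · refine (ENat.toENNReal_le.2 (encard_le_encard (hcover α))).trans ?_
    refine (ENat.toENNReal_le.2 (encard_union_le _ _)).trans ?_
    rw [ENat.toENNReal_add]
    refine add_le_add ?_ (encard_biUnion_le' _ _ _ subset_rfl)
    simp only [cnt]
    rcases le_or_gt α (π / 2) with h | h
    · rw [indicator_of_mem (show α ∈ Ioc 0 (π / 2) from ⟨hα.1, h⟩)]
      exact le_self_add
    · rw [indicator_of_mem (show α ∈ Ioo (π / 2) π from ⟨h, hα.2⟩)]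
      exact le_add_self
  · rw [Finset.sum_const, nsmul_eq_mul]
    unfold BJ
    have : (E.card : ℝ) * (8000 * (n + 1)) ≤ 2 * (In n / k0 n + 1) * (8000 * (n + 1)) :=
      mul_le_mul_of_nonneg_right hE h8
    linarith

end

end Pool.Agent.Q62.UM
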