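import Pool.Agent.Q62.UM.Main

/-! Project UM: assembly, all pieces and all zeros. -/

open Real Set MeasureTheory Topology Filter
open scoped ENNReal

namespace Pool.Agent.Q62.UM

noncomputable section

open Pool.Agent.H709R2 (rot wedge field ClosedOrbit)
open Pool.Agent.H709U Pool.Agent.Q62.HU
open Pool.Agent.H709Q (Maj majRules)

/-! ### Constants -/

@[irreducible] def m1 (n : ℕ) : ℕ := 20 * (2 * n + 1) ^ 2 * (80 * (Ph^[12] (3000000 * n ^ 9)) ^ 4)

@[irreducible] def ZA (n : ℕ) : ℕ := (n ^ 2 + 24 * n ^ 2) + (n ^ 2 + 24 * n ^ 2 + 1) * (4 * n ^ 2)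

@[irreducible] def ZT (n : ℕ) : ℕ := ZA n + (ZA n + 1) * m1 n

/-! ### Restriction of the data -/

lemma Alg_mono {D : ℕ} {J J' : Set ℝ} {f : ℝ → ℂ} (h : Alg D J f) (hJ : J' ⊆ J) : Alg D J' f := by
  obtain ⟨A, h1, h2, h3, h4⟩ := h
  exact ⟨A, h1, h2, h3, fun u hu => h4 u (hJ hu)⟩

lemma RD.mono {I J : Set ℝ} {D : ℕ} {F : ℂ → ℂ} {N : ℕ} {ρ : Fin N → ℝ → ℝ} {ε : Fin N → ℝ → ℂ}
    {q : ℤ} {c : ℝ → ℂ} (h : RD I D F N ρ ε q c) (hJ : J ⊆ I) : RD J D F N ρ ε q c where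
  ρc j := (h.ρc j).mono hJ
  εc j := (h.εc j).mono hJ
  cc := h.cc.mono hJ
  ρ0 j u hu := h.ρ0 j u (hJ hu)
  ρ1 j u hu := h.ρ1 j u (hJ hu)
  ε1 j u hu := h.ε1 j u (hJ hu)
  c0 u hu := h.c0 u (hJ hu)
  ρA j := Alg_mono (h.ρA j) hJ
  εA j := Alg_mono (h.εA j) hJ
  cA := Alg_mono h.cA hJ
  F z hz := h.F z (hJ hz)

lemma Ph_mono {a b : ℕ} (h : a ≤ b) : Ph a ≤ Ph b := by
  unfold Ph
  exact Nat.mul_le_mul_left _ (Nat.pow_le_pow_left h 3)

/-- the pieces -/
theorem pieces (d6 : S_D6) (pa : S_PA) (pb : S_PB) (pc : S_PC) {n : ℕ} (hn : 1 ≤ n)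
    {P Q : MvPolynomial (Fin 2) ℝ} (hP : P.totalDegree ≤ n) (hQ : Q.totalDegree ≤ n) (p : ℝ × ℝ)
    (Zf : Finset ℝ) (hZc : Zf.card ≤ n ^ 2) (hZf : ∀ z, FF P Q p z = 0 → z.re ∈ Zf) :
    ∃ Z : Finset ℝ, Z.card ≤ ZT n ∧ ∀ J, OI J → J.Nonempty → Disjoint J (Z : Set ℝ) →
      PieceD n (FF P Q p) J (In n) := by
  obtain ⟨Z₀, hZ₀, h0⟩ := pa n P Q p Zf hn hP hQ hZf
  have hZ₀' : Z₀.card ≤ ZA n := by
    refine hZ₀.trans ?_
    unfold ZA
    exact Nat.add_le_add (by omega) (Nat.mul_le_mul_right _ (by omega))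
  obtain ⟨Z, hZ, h⟩ := d6 (fun J => PieceD n (FF P Q p) J (In n)) Z₀ (m1 n) (by
    intro I hI hIn hdis
    obtain ⟨N, ρ, ε, q, c, hN, hq, hR⟩ := h0 I hI hIn hdis
    obtain ⟨Z, hZ, h1⟩ := pb I _ _ N ρ ε q c (by
      have : 1 ≤ n ^ 9 := Nat.one_le_pow _ _ hn
      omega) hI hR
    refine ⟨Z, hZ.trans ?_, fun J hJ hJn hJI hJZ => ?_⟩
    · unfold m1
      exact Nat.mul_le_mul_right _ (Nat.mul_le_mul_left _ (Nat.pow_le_pow_left (by omega) 2))
    · exact pc n J _ _ N ρ ε q c hJ hJn hN hq (hR.mono hJI) (h1 J hJ hJI hJZ))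
  refine ⟨Z, hZ.trans ?_, h⟩
  unfold ZT
  exact Nat.add_le_add hZ₀' (Nat.mul_le_mul_right _ (by omega))

/-! ### Components of the complement of a finite set -/

def comp (Z : Finset ℝ) : Option ℝ → Set ℝ
  | none => {u | ∀ z ∈ Z, u < z}
  | some a => {u | a < u ∧ ∀ z ∈ Z, a < z → u < z}

lemma comp_oi (Z : Finset ℝ) (o : Option ℝ) : OI (comp Z o) := by
  cases o with
  | none =>
    constructor
    · have : comp Z none = ⋂ z ∈ Z, Iio z := by
        ext u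
        simp [comp]
      rw [this]
      exact isOpen_biInter_finset fun z _ => isOpen_Iio
    · refine ⟨fun u _ v hv w hw z hz => hw.2.trans_lt (hv z hz)⟩
  | some a =>
    constructor
    · have : comp Z (some a) = Ioi a ∩ ⋂ z ∈ Z.filter (fun z => a < z), Iio z := by
        ext u
        simp [comp]
      rw [this]
      exact isOpen_Ioi.inter (isOpen_biInter_finset fun z _ => isOpen_Iio)
    · refine ⟨fun u hu v hv w hw => ⟨hu.1.trans_le hw.1, fun z hz haz => ?_⟩⟩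
      exact hw.2.trans_lt (hv.2 z hz haz)

lemma comp_disj (Z : Finset ℝ) (o : Option ℝ) : Disjoint (comp Z o) (Z : Set ℝ) := by
  rw [Set.disjoint_left]
  intro u hu huZ
  have huZ' : u ∈ Z := huZ
  cases o with
  | none => exact lt_irrefl _ (hu u huZ')
  | some a => exact lt_irrefl _ (hu.2 u huZ' hu.1)

lemma comp_cover (Z : Finset ℝ) {I : Set ℝ} (hI : I.OrdConnected) (hne : I.Nonempty)
    (hd : ∀ u ∈ I, u ∉ Z) : ∃ o ∈ insert none (Z.image some), I ⊆ comp Z o := by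
  classical
  obtain ⟨u₀, hu₀⟩ := hne
  have hup : ∀ z ∈ Z, u₀ < z → ∀ u ∈ I, u < z := by
    intro z hz h u hu
    by_contra hcon
    push Not at hcon
    exact hd z (hI.out hu₀ hu ⟨h.le, hcon⟩) hz
  have hdn : ∀ z ∈ Z, z < u₀ → ∀ u ∈ I, z < u := by
    intro z hz h u hu
    by_contra hcon
    push Not at hcon
    exact hd z (hI.out hu hu₀ ⟨hcon, h.le⟩) hz
  by_cases hL : (Z.filter (fun z => z < u₀)).Nonempty
  · obtain ⟨a, ha, hmax⟩ := Finset.exists_max_image _ id hL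
    rw [Finset.mem_filter] at ha
    refine ⟨some a, ?_, fun u hu => ⟨hdn a ha.1 ha.2 u hu, fun z hz haz => ?_⟩⟩
    · exact Finset.mem_insert_of_mem (Finset.mem_image_of_mem _ ha.1)
    · refine hup z hz ?_ u hu
      by_contra hcon
      push Not at hcon
      rcases hcon.eq_or_lt with h | h
      · exact hd u₀ hu₀ (h ▸ hz)
      · have := hmax z (Finset.mem_filter.2 ⟨hz, h⟩)
        simp only [id] at this
        linarith
  · refine ⟨none, Finset.mem_insert_self _ _, fun u hu z hz => ?_⟩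
    refine hup z hz ?_ u hu
    by_contra hcon
    push Not at hcon
    rcases hcon.eq_or_lt with h | h
    · exact hd u₀ hu₀ (h ▸ hz)
    · exact hL ⟨z, Finset.mem_filter.2 ⟨hz, h⟩⟩

lemma card_idx (Z : Finset ℝ) : (insert none (Z.image some)).card ≤ Z.card + 1 := by
  classical
  exact (Finset.card_insert_le _ _).trans (by
    have := Finset.card_image_le (s := Z) (f := (some : ℝ → Option ℝ))
    omega)

/-- **One zero of the field.** -/
theorem maj_zero (sf : S_SF) (sm : S_SM) (t4 : S_T4) (a2 : S_A2) (a3 : S_A3) (d6 : S_D6)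
    (pa : S_PA) (pb : S_PB) (pc : S_PC) {n : ℕ} (hn : 1 ≤ n) {P Q : MvPolynomial (Fin 2) ℝ}
    (hP : P.totalDegree ≤ n) (hQ : Q.totalDegree ≤ n) (p : ℝ × ℝ)
    (Zf : Finset ℝ) (hZc : Zf.card ≤ n ^ 2) (hZf : ∀ z, FF P Q p z = 0 → z.re ∈ Zf) :
    Maj (fun α => ({C | C ∈ Cl P Q α ∧ InBox p C ∧ p ∉ C}.encard : ℝ≥0∞))
      (ZT n * (8000 * (n + 1)) + (ZT n + 1) * BJ n) := by
  classical
  obtain ⟨Z, hZ, hJ⟩ := pieces d6 pa pb pc hn hP hQ p Zf hZc hZf
  set HS : ℝ → ℝ → Set (Set (ℝ × ℝ)) := fun v α => {C | C ∈ Cl P Q α ∧ InBox p C ∧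
    p ∉ C ∧ ∃ z ∈ C, v ≤ lg p z ∧ lg p z ≤ v + 1} with hHS
  set HJ : Option ℝ → ℝ → Set (Set (ℝ × ℝ)) := fun o α => {C | C ∈ Cl P Q α ∧ InBox p C ∧ p ∉ C ∧
    ∀ z ∈ C, lg p z ∈ comp Z o} with hHJ
  have hcover : ∀ α, {C | C ∈ Cl P Q α ∧ InBox p C ∧ p ∉ C} ⊆
      (⋃ e ∈ Z, HS e α) ∪ ⋃ o ∈ insert none (Z.image some), HJ o α := by
    rintro α C ⟨hC, hbox, hpC⟩
    by_cases hcase : ∃ z ∈ C, lg p z ∈ Z
    · left
      obtain ⟨z, hz, he⟩ := hcase
      simp only [mem_iUnion]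
      exact ⟨lg p z, he, hC, hbox, hpC, z, hz, le_rfl, by linarith⟩
    · right
      push Not at hcase
      obtain ⟨γ, T, hO, hCr⟩ := m0 (field P Q) (H709R2.contDiff_field P Q) α C hC
      have hγ : Continuous γ := orb_cont hO
      have hne : ∀ t, γ t ≠ p := fun t h => hpC (by rw [hCr]; exact ⟨t, h⟩)
      have hc : Continuous fun t => lg p (γ t) := by
        unfold lg H709R2.sq
        refine Continuous.div_const ?_ _
        refine Continuous.log (by fun_prop) fun t => ?_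
        exact (H709R2.sq_pos (sub_ne_zero.2 (hne t))).ne'
      have hI : (range fun t => lg p (γ t)).OrdConnected := (isPreconnected_range hc).ordConnected
      obtain ⟨o, ho, hsub⟩ := comp_cover Z hI ⟨_, ⟨0, rfl⟩⟩ (by
        rintro _ ⟨t, rfl⟩
        exact hcase _ (by rw [hCr]; exact ⟨t, rfl⟩))
      simp only [mem_iUnion]
      refine ⟨o, ho, hC, hbox, hpC, fun z hz => ?_⟩
      rw [hCr] at hz
      obtain ⟨t, rfl⟩ := hz
      exact hsub ⟨t, rfl⟩
  have h8 : (0 : ℝ) ≤ 8000 * (n + 1) := by positivity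
  have hM1 : Maj (fun α => ∑ e ∈ Z, ((HS e α).encard : ℝ≥0∞))
      (∑ e ∈ Z, (8000 * ((n : ℝ) + 1))) :=
    Z1aux.maj_sum _ _ _ (fun _ _ => h8) fun e _ => h4' n P Q hP hQ p _
  have hM2 : Maj (fun α => ∑ o ∈ insert none (Z.image some), ((HJ o α).encard : ℝ≥0∞))
      (∑ o ∈ insert none (Z.image some), BJ n) := by
    refine Z1aux.maj_sum _ _ _ (fun _ _ => BJ_nonneg n) fun o _ => ?_
    by_cases hne : (comp Z o).Nonempty
    · exact maj_piece sf sm t4 a2 a3 hP hQ (comp_oi Z o) (hJ _ (comp_oi Z o) hne (comp_disj Z o))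
    · refine ⟨fun _ => 0, measurable_const, fun α _ => ?_, by simp⟩
      have : HJ o α = ∅ := by
        rw [eq_empty_iff_forall_notMem]
        rintro C ⟨hC, -, -, h⟩
        obtain ⟨γ, T, hO, hCr⟩ := m0 (field P Q) (H709R2.contDiff_field P Q) α C hC
        exact hne ⟨_, h (γ 0) (by rw [hCr]; exact ⟨0, rfl⟩)⟩
      show ((HJ o α).encard : ℝ≥0∞) ≤ 0
      rw [this]
      simp
  have hM := majRules.2.1 _ _ _ _ (Finset.sum_nonneg fun _ _ => h8)
    (Finset.sum_nonneg fun _ _ => BJ_nonneg n) hM1 hM2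
  refine Z1aux.maj_mono (fun α _ => ?_) ?_ hM
  · refine (ENat.toENNReal_le.2 (encard_le_encard (hcover α))).trans ?_
    refine (ENat.toENNReal_le.2 (encard_union_le _ _)).trans ?_
    rw [ENat.toENNReal_add]
    exact add_le_add (encard_biUnion_le' _ _ _ subset_rfl) (encard_biUnion_le' _ _ _ subset_rfl)
  · rw [Finset.sum_const, Finset.sum_const, nsmul_eq_mul, nsmul_eq_mul]
    have c1 : (Z.card : ℝ) ≤ ZT n := by exact_mod_cast hZ
    have c2 : ((insert none (Z.image some)).card : ℝ) ≤ ZT n + 1 := by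
      have := (card_idx Z).trans (Nat.add_le_add_right hZ 1)
      exact_mod_cast this
    exact add_le_add (mul_le_mul_of_nonneg_right c1 h8)
      (mul_le_mul_of_nonneg_right c2 (BJ_nonneg n))

/-- the bound -/
@[irreducible] def Bn (n : ℕ) : ℝ := n ^ 2 * (ZT n * (8000 * (n + 1)) + (ZT n + 1) * BJ n)

/-- **Relatively prime components.** -/
theorem maj_prime (sf : S_SF) (sm : S_SM) (t4 : S_T4) (a2 : S_A2) (a3 : S_A3) (d6 : S_D6)
    (pa : S_PA) (pb : S_PB) (pc : S_PC) {n : ℕ} (hn : 1 ≤ n) {P Q : MvPolynomial (Fin 2) ℝ}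
    (hP : P.totalDegree ≤ n) (hQ : Q.totalDegree ≤ n) (hPQ : IsRelPrime P Q) :
    Maj (fun α => ((Cl P Q α).encard : ℝ≥0∞)) (Bn n) := by
  classical
  obtain ⟨Z, hZc, hZ⟩ := b3 n P Q hP hQ hPQ
  have hcd : ContDiff ℝ 2 (field P Q) := H709R2.contDiff_field P Q
  have hB : (0:ℝ) ≤ ZT n * (8000 * (n + 1)) + (ZT n + 1) * BJ n := by
    have := BJ_nonneg n
    positivity
  have h1 : ∀ p ∈ Z, Maj (fun α => ({C | C ∈ Cl P Q α ∧ InBox p C ∧ p ∉ C}.encard : ℝ≥0∞))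
      (ZT n * (8000 * (n + 1)) + (ZT n + 1) * BJ n) := by
    intro p hp
    refine maj_zero sf sm t4 a2 a3 d6 pa pb pc hn hP hQ p (Z.image (lg p))
      (Finset.card_image_le.trans hZc) (fun z hz => ?_)
    rw [FF_eq] at hz
    unfold FX at hz
    rw [map_eq_zero_iff ec ec.injective] at hz
    refine Finset.mem_image.2 ⟨pt p z.re z.im, (hZ _).1 hz, ?_⟩
    rw [lg_pt]
  have h2 := Z1aux.maj_sum Z _ _ (fun _ _ => hB) h1
  refine Z1aux.maj_mono (fun α _ => ?_) ?_ h2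
  · apply encard_biUnion_le'
    intro C hC
    obtain ⟨p, hp0, hbox⟩ := t3' (field P Q) hcd α C hC
    have hpC : p ∉ C := by
      intro hpC
      obtain ⟨γ, T, hO, hCr⟩ := m0 (field P Q) hcd α C hC
      rw [hCr] at hpC
      obtain ⟨t, ht⟩ := hpC
      apply hO.ne t
      rw [ht, rf, hp0, Z1aux.rot_zero']
    simp only [mem_iUnion]
    exact ⟨p, (hZ p).1 hp0, hC, hbox, hpC⟩
  · rw [Finset.sum_const, nsmul_eq_mul]
    have h3 : (Z.card : ℝ) ≤ n ^ 2 := by exact_mod_cast hZc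
    unfold Bn
    exact mul_le_mul_of_nonneg_right h3 hB

lemma Bn_nonneg (n : ℕ) : 0 ≤ Bn n := by
  have := BJ_nonneg n
  unfold Bn
  positivity

/-- **All polynomial fields of degree at most `n`.** -/
theorem maj_all (sf : S_SF) (sm : S_SM) (t4 : S_T4) (a2 : S_A2) (a3 : S_A3) (d6 : S_D6)
    (pa : S_PA) (pb : S_PB) (pc : S_PC) {n : ℕ} (hn : 1 ≤ n) {P Q : MvPolynomial (Fin 2) ℝ}
    (hP : P.totalDegree ≤ n) (hQ : Q.totalDegree ≤ n) :
    Maj (fun α => ((Cl P Q α).encard : ℝ≥0∞)) (Bn n) := by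
  by_cases h0 : P ≠ 0 ∨ Q ≠ 0
  · obtain ⟨h, P₁, Q₁, rfl, rfl, hrel, h1, h2⟩ := b1 n P Q hP hQ h0
    refine Z1aux.maj_mono (fun α _ => ?_) le_rfl
      (maj_prime sf sm t4 a2 a3 d6 pa pb pc hn h1 h2 hrel)
    exact ENat.toENNReal_le.2 (encard_le_encard (b2 m0 h P₁ Q₁ α))
  · push Not at h0
    obtain ⟨rfl, rfl⟩ := h0
    refine ⟨fun _ => 0, measurable_const, fun α _ => ?_, by simp⟩
    have : Cl (0 : MvPolynomial (Fin 2) ℝ) 0 α = ∅ := by
      rw [eq_empty_iff_forall_notMem]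
      intro C hC
      obtain ⟨γ, T, hO, -⟩ := m0 (field 0 0) (H709R2.contDiff_field _ _) α C hC
      apply hO.ne 0
      have : field (0 : MvPolynomial (Fin 2) ℝ) 0 (γ 0) = 0 := by
        unfold field
        simp
      rw [rf, this, Z1aux.rot_zero']
    show ((Cl (0 : MvPolynomial (Fin 2) ℝ) 0 α).encard : ℝ≥0∞) ≤ 0
    rw [this]
    simp

/-! ### Polynomial growth -/

/-- polynomial growth -/
def PG (f : ℕ → ℝ) : Prop := ∃ K : ℕ, ∀ n : ℕ, 1 ≤ n → f n ≤ K * (n:ℝ) ^ K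

lemma PG.up {f : ℕ → ℝ} (h : PG f) : ∃ K : ℕ, 1 ≤ K ∧ ∀ L : ℕ, K ≤ L → ∀ n : ℕ, 1 ≤ n →
    f n ≤ L * (n:ℝ) ^ L := by
  obtain ⟨K, hK⟩ := h
  refine ⟨max K 1, le_max_right _ _, fun L hL n hn => (hK n hn).trans ?_⟩
  have hn' : (1:ℝ) ≤ n := by exact_mod_cast hn
  have h1 : K ≤ L := (le_max_left _ _).trans hL
  have h2 : (K:ℝ) ≤ L := by exact_mod_cast h1
  exact mul_le_mul h2 (pow_le_pow_right₀ hn' h1) (by positivity) (by positivity)

lemma PG.const (c : ℝ) : PG fun _ => c := by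
  obtain ⟨K, hK⟩ := exists_nat_ge c
  refine ⟨K, fun n hn => hK.trans ?_⟩
  have hn' : (1:ℝ) ≤ n := by exact_mod_cast hn
  have : (1:ℝ) ≤ (n:ℝ) ^ K := one_le_pow₀ hn'
  have h0 : (0:ℝ) ≤ K := Nat.cast_nonneg K
  nlinarith

lemma PG.id : PG fun n => (n:ℝ) := ⟨1, fun n _ => by simp⟩

lemma PG.add {f g : ℕ → ℝ} (hf : PG f) (hg : PG g) : PG fun n => f n + g n := by
  obtain ⟨K, hK1, hK⟩ := hf.up
  obtain ⟨L, hL1, hL⟩ := hg.up
  refine ⟨2 * (K + L), fun n hn => ?_⟩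
  have h1 := hK (K + L) (by omega) n hn
  have h2 := hL (K + L) (by omega) n hn
  have hn' : (1:ℝ) ≤ n := by exact_mod_cast hn
  have h3 : (n:ℝ) ^ (K + L) ≤ (n:ℝ) ^ (2 * (K + L)) := pow_le_pow_right₀ hn' (by omega)
  push_cast at h1 h2 ⊢
  have h4 : (0:ℝ) ≤ (K:ℝ) + L := by positivity
  calc f n + g n ≤ 2 * ((K:ℝ) + L) * (n:ℝ) ^ (K + L) := by linarith
    _ ≤ _ := mul_le_mul_of_nonneg_left h3 (by positivity)

lemma PG.mul {f g : ℕ → ℝ} (hf0 : ∀ n, 0 ≤ f n) (hg0 : ∀ n, 0 ≤ g n) (hf : PG f) (hg : PG g) :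
    PG fun n => f n * g n := by
  obtain ⟨K, hK1, hK⟩ := hf.up
  obtain ⟨L, hL1, hL⟩ := hg.up
  refine ⟨(K + L) ^ 2 * 2, fun n hn => ?_⟩
  have h1 := hK (K + L) (by omega) n hn
  have h2 := hL (K + L) (by omega) n hn
  have hn' : (1:ℝ) ≤ n := by exact_mod_cast hn
  have h3 : f n * g n ≤ (((K + L : ℕ) : ℝ) * (n:ℝ) ^ (K + L)) * (((K + L : ℕ) : ℝ) *
      (n:ℝ) ^ (K + L)) := mul_le_mul h1 h2 (hg0 n) (by positivity)
  refine h3.trans ?_
  have h4 : (((K + L : ℕ) : ℝ) * (n:ℝ) ^ (K + L)) * (((K + L : ℕ) : ℝ) * (n:ℝ) ^ (K + L)) =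
      ((K + L : ℕ) : ℝ) ^ 2 * (n:ℝ) ^ (2 * (K + L)) := by
    rw [two_mul, pow_add (n:ℝ) (K + L) (K + L)]
    ring
  rw [h4]
  have h5 : 2 * (K + L) ≤ (K + L) ^ 2 * 2 := by nlinarith
  have h6 : (n:ℝ) ^ (2 * (K + L)) ≤ (n:ℝ) ^ ((K + L) ^ 2 * 2) := pow_le_pow_right₀ hn' h5
  push_cast
  have h7 : (0:ℝ) ≤ ((K:ℝ) + L) ^ 2 := by positivity
  calc ((K:ℝ) + L) ^ 2 * (n:ℝ) ^ (2 * (K + L)) ≤ ((K:ℝ) + L) ^ 2 * (n:ℝ) ^ ((K + L) ^ 2 * 2) :=
        mul_le_mul_of_nonneg_left h6 h7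
    _ ≤ ((K:ℝ) + L) ^ 2 * 2 * (n:ℝ) ^ ((K + L) ^ 2 * 2) :=
        mul_le_mul_of_nonneg_right (by linarith) (by positivity)

lemma PG.pow {f : ℕ → ℝ} (hf0 : ∀ n, 0 ≤ f n) (hf : PG f) (k : ℕ) : PG fun n => f n ^ k := by
  induction k with
  | zero => simpa using PG.const 1
  | succ k ih =>
    simp only [pow_succ]
    exact PG.mul (fun n => pow_nonneg (hf0 n) k) hf0 ih hf

lemma PG.iter (k : ℕ) : ∀ f : ℕ → ℕ, PG (fun n => (f n : ℝ)) →
    PG fun n => ((Ph^[k] (f n) : ℕ) : ℝ) := by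
  induction k with
  | zero => intro f hf; exact hf
  | succ k ih =>
    intro f hf
    simp only [Function.iterate_succ, Function.comp_apply]
    refine ih (fun n => Ph (f n)) ?_
    unfold Ph
    push_cast
    exact PG.mul (fun _ => by norm_num) (fun n => by positivity) (PG.const 10)
      (PG.pow (fun n => Nat.cast_nonneg _) hf 3)

theorem Bn_growth : PG Bn := by
  have hnn : ∀ n : ℕ, (0:ℝ) ≤ n := fun n => Nat.cast_nonneg n
  have hid := PG.id
  have h21 : PG fun n : ℕ => (2 * (n:ℝ) + 1) :=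
    PG.add (PG.mul (fun _ => by norm_num) hnn (PG.const 2) hid) (PG.const 1)
  have h21n : ∀ n : ℕ, (0:ℝ) ≤ 2 * (n:ℝ) + 1 := fun n => by positivity
  have hn1 : PG fun n : ℕ => ((n:ℝ) + 1) := PG.add hid (PG.const 1)
  have hn1n : ∀ n : ℕ, (0:ℝ) ≤ (n:ℝ) + 1 := fun n => by positivity
  have hCM : PG CMn := by
    unfold CMn
    exact PG.mul (fun n => by positivity) (fun n => by positivity)
      (PG.mul (fun _ => by norm_num) hn1n (PG.const 100) hn1)
      (PG.pow (fun n => by positivity) (PG.pow h21n h21 2) 3)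
  have hCMn : ∀ n, 0 ≤ CMn n := fun n => zero_le_one.trans (CMn_ge n)
  have hC0 : PG C0 := by
    unfold C0
    exact PG.mul (fun _ => by norm_num) (fun n => by positivity) (PG.const 32) (PG.pow hCMn hCM 2)
  have hIn : PG In := by
    unfold In
    exact PG.mul (fun _ => by norm_num) (fun n => by positivity) (PG.const 1000) (PG.pow h21n h21 2)
  have hdiv : (fun n => In n / k0 n) = fun n => In n * (4 * CMn n) := by
    funext n
    have := (lt_of_lt_of_le one_pos (CMn_ge n)).ne'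
    unfold k0
    field_simp
  have hq : PG fun n => In n / k0 n := by
    rw [hdiv]
    exact PG.mul In_nonneg (fun n => mul_nonneg (by norm_num) (hCMn n)) hIn
      (PG.mul (fun _ => by norm_num) hCMn (PG.const 4) hCM)
  have hqn : ∀ n, 0 ≤ In n / k0 n := fun n => div_nonneg (In_nonneg n) (k0_pos n).le
  have hBJ : PG BJ := by
    unfold BJ
    refine PG.add (PG.mul (fun _ => by norm_num) (fun n => ?_) (PG.const 2) ?_) ?_
    · have := C0_nonneg n
      have := In_nonneg n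
      positivity
    · exact PG.add (PG.mul (fun n => mul_nonneg (by norm_num) (C0_nonneg n)) In_nonneg
        (PG.mul (fun _ => by norm_num) C0_nonneg (PG.const 16) hC0) hIn) (PG.const 8)
    · refine PG.mul (fun n => by positivity) (fun n => ?_)
        (PG.mul (fun _ => by norm_num) hn1n (PG.const 8000) hn1)
        (PG.mul (fun _ => by norm_num) (fun n => ?_) (PG.const 2) (PG.add hq (PG.const 1)))
      · have := hqn n
        positivity
      · have := hqn n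
        positivity
  have hn2 : PG fun n : ℕ => (n:ℝ) ^ 2 := PG.pow hnn hid 2
  have hit : PG fun n => ((Ph^[12] (3000000 * n ^ 9) : ℕ) : ℝ) := by
    refine PG.iter 12 (fun n => 3000000 * n ^ 9) ?_
    have h1 : (fun n : ℕ => ((3000000 * n ^ 9 : ℕ) : ℝ)) = fun n : ℕ => (3000000:ℝ) * (n:ℝ) ^ 9 := by
      funext n
      push_cast
      rfl
    rw [h1]
    exact PG.mul (f := fun _ => (3000000:ℝ)) (g := fun n : ℕ => (n:ℝ) ^ 9) (fun _ => by norm_num)
      (fun n => by positivity) (PG.const 3000000) (PG.pow hnn hid 9)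
  have hm1 : PG fun n => (m1 n : ℝ) := by
    unfold m1
    push_cast
    exact PG.mul (fun n => by positivity) (fun n => by positivity)
      (PG.mul (fun _ => by norm_num) (fun n => by positivity) (PG.const 20) (PG.pow h21n h21 2))
      (PG.mul (fun _ => by norm_num) (fun n => by positivity) (PG.const 80)
        (PG.pow (fun n => Nat.cast_nonneg _) hit 4))
  have hz1 : PG fun n : ℕ => ((n:ℝ) ^ 2 + 24 * (n:ℝ) ^ 2) :=
    PG.add hn2 (PG.mul (fun _ => by norm_num) (fun n => by positivity) (PG.const 24) hn2)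
  have hZA : PG fun n => (ZA n : ℝ) := by
    unfold ZA
    push_cast
    exact PG.add hz1 (PG.mul (fun n => by positivity) (fun n => by positivity)
      (PG.add hz1 (PG.const 1))
      (PG.mul (fun _ => by norm_num) (fun n => by positivity) (PG.const 4) hn2))
  have hZT : PG fun n => (ZT n : ℝ) := by
    unfold ZT
    push_cast
    exact PG.add hZA (PG.mul (fun n => by positivity) (fun n => by positivity)
      (PG.add hZA (PG.const 1)) hm1)
  unfold Bn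
  refine PG.mul (fun n => by positivity) (fun n => ?_) hn2 (PG.add ?_ ?_)
  · have := BJ_nonneg n
    positivity
  · exact PG.mul (fun n => by positivity) (fun n => by positivity) hZT
      (PG.mul (fun _ => by norm_num) hn1n (PG.const 8000) hn1)
  · exact PG.mul (fun n => by positivity) BJ_nonneg (PG.add hZT (PG.const 1)) hBJ

end

end Pool.Agent.Q62.UM
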