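import Pool.Agent.Q62.HU.Class
import Pool.Agent.Q62.UM.Cfg

/-! Project UM: closed orbits over an interval of logarithms of distances. -/

open Real Set MeasureTheory Topology Filter
open scoped ENNReal

namespace Pool.Agent.Q62.UM

noncomputable section

open Pool.Agent.H709R2 (rot wedge field ClosedOrbit)
open Pool.Agent.H709U Pool.Agent.Q62.HU

/-- closed orbits of the rotated field whose distances from `p` have their logarithms in `U` -/
structure ZU (X : ℝ × ℝ → ℝ × ℝ) (p : ℝ × ℝ) (U : Set ℝ) (α : ℝ) (C : Set (ℝ × ℝ)) : Prop where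
  orb : ClosedOrbit (rf X α) C
  np : p ∉ C
  mem : ∀ z ∈ C, lg p z ∈ U

/-- the plane field in the coordinates `z = u + i θ` -/
def FX (X : ℝ × ℝ → ℝ × ℝ) (p : ℝ × ℝ) (z : ℂ) : ℂ := ec (X (pt p z.re z.im))

/-- the curve of a closed orbit -/
structure CU (X : ℝ × ℝ → ℝ × ℝ) (p : ℝ × ℝ) (α : ℝ) (C : Set (ℝ × ℝ)) (γ : ℝ → ℝ × ℝ) (T : ℝ) :
    Prop where
  orb : Orb (rf X α) γ T
  rg : C = range γ
  ne : ∀ t, γ t ≠ p
  cur : Cur (fun t => ec (γ t - p)) (fun t => ec (rf X α (γ t))) T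
  wd : Wn (fun t => ec (γ t - p)) (fun t => ec (rf X α (γ t))) T 0 ≠ 0
  n0 : (0:ℂ) ∉ range (fun t => ec (γ t - p))
  lo : ∃ t₀, lg p (γ t₀) = mn p C ∧ ∀ t, mn p C ≤ lg p (γ t)
  hi : ∃ t₁, lg p (γ t₁) = mx p C ∧ ∀ t, lg p (γ t) ≤ mx p C

lemma exists_cu {X : ℝ × ℝ → ℝ × ℝ} (hX2 : ContDiff ℝ 2 X) {p : ℝ × ℝ} {U : Set ℝ} {α : ℝ}
    {C : Set (ℝ × ℝ)} (hz : ∀ z, z ≠ p → lg p z ∈ U → X z ≠ 0) (h : ZU X p U α C) :
    ∃ γ T, CU X p α C γ T := by
  obtain ⟨γ, T, hO, hr⟩ := m0 X hX2 α C h.orb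
  have hne : ∀ t, γ t ≠ p := fun t h0 => h.np (by rw [hr]; exact ⟨t, h0⟩)
  have hcur := cur_of_orb hX2.continuous p hO
  have hn0 : (0:ℂ) ∉ range (fun t => ec (γ t - p)) := by
    rintro ⟨t, ht⟩
    replace ht : ec (γ t - p) = 0 := ht
    rw [map_eq_zero_iff ec ec.injective] at ht
    exact hne t (sub_eq_zero.1 ht)
  have hγ := orb_cont hO
  have hc : Continuous fun t => lg p (γ t) := by
    unfold lg H709R2.sq
    refine Continuous.div_const ?_ _
    refine Continuous.log (by fun_prop) fun t => ?_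
    exact (H709R2.sq_pos (sub_ne_zero.2 (hne t))).ne'
  have hcomp : IsCompact (lg p '' C) := by
    have h1 : lg p '' C = (fun t => lg p (γ t)) '' Icc 0 T := by
      rw [hr]
      ext x
      constructor
      · rintro ⟨_, ⟨t, rfl⟩, rfl⟩
        obtain ⟨s, hs, hst⟩ := Function.Periodic.exists_mem_Ico (f := γ) hO.per hO.pos t 0
        rw [zero_add] at hs
        exact ⟨s, ⟨hs.1, hs.2.le⟩, by simp only [hst]⟩
      · rintro ⟨s, -, rfl⟩
        exact ⟨γ s, ⟨s, rfl⟩, rfl⟩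
    rw [h1]
    exact isCompact_Icc.image hc
  have hne' : (lg p '' C).Nonempty := ⟨lg p (γ 0), γ 0, by rw [hr]; exact ⟨0, rfl⟩, rfl⟩
  have hlo : ∃ t₀, lg p (γ t₀) = mn p C ∧ ∀ t, mn p C ≤ lg p (γ t) := by
    obtain ⟨z, hz, hz'⟩ := hcomp.sInf_mem hne'
    rw [hr] at hz
    obtain ⟨t, rfl⟩ := hz
    exact ⟨t, hz', fun t' => csInf_le hcomp.bddBelow ⟨γ t', by rw [hr]; exact ⟨t', rfl⟩, rfl⟩⟩
  have hhi : ∃ t₁, lg p (γ t₁) = mx p C ∧ ∀ t, lg p (γ t) ≤ mx p C := by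
    obtain ⟨z, hz, hz'⟩ := hcomp.sSup_mem hne'
    rw [hr] at hz
    obtain ⟨t, rfl⟩ := hz
    exact ⟨t, hz', fun t' => le_csSup hcomp.bddAbove ⟨γ t', by rw [hr]; exact ⟨t', rfl⟩, rfl⟩⟩
  refine ⟨γ, T, hO, hr, hne, hcur, ?_, hn0, hlo, hhi⟩
  obtain ⟨t₀, ht₀, hmn⟩ := hlo
  obtain ⟨t₁, ht₁, hmx⟩ := hhi
  have hI : (range fun t => lg p (γ t)).OrdConnected := (isPreconnected_range hc).ordConnected
  refine wind_ne t1 hX2.continuous hO (u₀ := mn p C) (u₁ := mx p C) ?_ ?_ hne hmn hmx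
  · intro z hz' h1 h2
    obtain ⟨t, ht⟩ := hI.out ⟨t₀, ht₀⟩ ⟨t₁, ht₁⟩ ⟨h1, h2⟩
    replace ht : lg p (γ t) = lg p z := ht
    refine hz z hz' ?_
    rw [← ht]
    exact h.mem _ (by rw [hr]; exact ⟨t, rfl⟩)
  · exact (hmn t₁).trans (hmx t₁)

/-- `z - p` in polar coordinates -/
lemma ec_pt (p : ℝ × ℝ) (z : ℂ) : ec (pt p z.re z.im - p) = Complex.exp z := by
  refine Complex.ext ?_ ?_
  · rw [ec_re, Complex.exp_re]
    unfold pt
    simp
  · rw [ec_im, Complex.exp_im]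
    unfold pt
    simp

/-- the lift of a closed orbit to the coordinates `z = u + i θ`: `γ = p + exp M` -/
lemma CU.lift {X : ℝ × ℝ → ℝ × ℝ} {p : ℝ × ℝ} {α : ℝ} {C : Set (ℝ × ℝ)} {γ : ℝ → ℝ × ℝ} {T : ℝ}
    (h : CU X p α C γ T) : ∃ (M : ℝ → ℂ) (k : ℤ), k ≠ 0 ∧
      (∀ t, Complex.exp (M t) = ec (γ t - p)) ∧ (∀ t, pt p (M t).re (M t).im = γ t) ∧
      (∀ t, (M t).re = lg p (γ t)) ∧
      (∀ t, HasDerivAt M (Complex.exp (α * Complex.I) * FX X p (M t) * Complex.exp (-M t)) t) ∧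
      (Continuous fun t => Complex.exp (α * Complex.I) * FX X p (M t) * Complex.exp (-M t)) ∧
      ∀ t, M (t + T) = M t + k * (2 * π * Complex.I) := by
  set a : ℝ → ℂ := fun t => ec (γ t - p) with ha
  set a' : ℝ → ℂ := fun t => ec (rf X α (γ t)) with ha'
  have hcur : Cur a a' T := h.cur
  have ha0 : ∀ t, a t ≠ 0 := fun t => by
    rw [ha, Ne, map_eq_zero_iff ec ec.injective]
    exact sub_ne_zero.2 (h.ne t)
  have h0 : (0:ℂ) ∉ range a := h.n0
  set M : ℝ → ℂ := fun t => Complex.log (a 0) + ∫ x in (0:ℝ)..t, a' x / (a x - 0) with hM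
  have hMe : ∀ t, Complex.exp (M t) = a t := by
    intro t
    have h1 := hcur.lift h0 t
    rw [sub_zero, sub_zero] at h1
    rw [hM, Complex.exp_add, Complex.exp_log (ha0 0), ← h1]
  have hpt : ∀ t, pt p (M t).re (M t).im = γ t := by
    intro t
    have h1 := hMe t
    rw [← ec_pt p (M t)] at h1
    have h2 := ec.injective h1
    exact sub_left_injective h2
  have hre : ∀ t, (M t).re = lg p (γ t) := fun t => by
    conv_rhs => rw [← hpt t]
    rw [lg_pt]
  have hval : ∀ t, a' t / (a t - 0) =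
      Complex.exp (α * Complex.I) * FX X p (M t) * Complex.exp (-M t) := by
    intro t
    have h1 : a' t = Complex.exp (α * Complex.I) * FX X p (M t) := by
      unfold FX
      rw [hpt, ← ec_rot]
      rfl
    rw [h1, sub_zero, ← hMe, Complex.exp_neg, div_eq_mul_inv]
  have hder : ∀ t, HasDerivAt M (a' t / (a t - 0)) t := fun t =>
    (intervalIntegral.integral_hasDerivAt_right ((hcur.cint h0).intervalIntegrable _ _)
      (hcur.cint h0).aestronglyMeasurable.stronglyMeasurableAtFilter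
      (hcur.cint h0).continuousAt).const_add _
  obtain ⟨k, hk⟩ := Complex.exp_eq_one_iff.1 (hcur.exp_Wn h0)
  have hper' : ∀ t, a' (t + T) = a' t := fun t => by
    simp only [ha', h.orb.per t]
  have hshift : ∀ t, M (t + T) = M t + Wn a a' T 0 := by
    intro t
    have h1 : ∀ t, HasDerivAt (fun t => M (t + T) - M t) 0 t := by
      intro t
      have h2 := (hder (t + T)).comp_add_const t T
      have h3 := h2.sub (hder t)
      refine h3.congr_deriv ?_
      rw [hper', hcur.per, sub_self]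
    have h2 := is_const_of_deriv_eq_zero (fun t => (h1 t).differentiableAt)
      (fun t => (h1 t).deriv) t 0
    simp only [zero_add] at h2
    have h3 : M T - M 0 = Wn a a' T 0 := by
      simp only [hM, intervalIntegral.integral_same, add_zero, add_sub_cancel_left]
      rfl
    rw [← h3, ← h2]
    ring
  refine ⟨M, k, ?_, hMe, hpt, hre, fun t => ?_, ?_, fun t => ?_⟩
  · rintro rfl
    apply h.wd
    show Wn a a' T 0 = 0
    rw [hk]
    simp
  · rw [← hval]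
    exact hder t
  · refine (hcur.cint h0).congr fun t => hval t
  · rw [hshift, hk]

end

end Pool.Agent.Q62.UM
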