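import Pool.Agent.Q62.UM.Lem

/-! Project UM, statements of group S: the field which follows the roots.

Notation of the proofs: `H k = Hf (x k)` (square of the chord, at most `4`), `G k = sin (x k)`,
`G k ^ 2 ≤ H k`, `h^(1/4) = √√h`, `y i k = √(Hf (x i - x k)) ≤ √(H i) + √(H k)` (`sqrt_Hf_sub`),
`√(y i k) ≤ H i^(1/4) + H k^(1/4)` (`r4_Hf_sub`), `(y i k)² ≤ 2 H i + 2 H k` (`Hf_sub_le`),
`λ k = lam x k`, `λ0 = 1 - ∑ λ = 1 / dn x`, `0 ≤ λ0 ≤ H k` for all `k`, `Λ = Lam x`,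
`|Λ| ≤ d √(H k)` for all `k` (`Lam_le`), `λ i H i ≤ H k`, `λ i √(H i) ≤ √(H k)`,
`λ i H i^(1/4) ≤ H k^(1/4)` for all `i, k` (`lam_mul`, `lam_sqrt`, `lam_r4`), `a j = aa dir x e j =
e j / (e j² + H (dir j))`, `A j = a j / (1 + ∑ a) ≤ e j / (e j + H (dir j)) ≤ 1` (`aq_le`),
`a j √(H (dir j)) ≤ 1/2`, `A j √(H (dir j)) ≤ √(e j) / 2` (`k1_le`),
`A j H (dir j)^(1/4) ≤ e j^(1/4)` (`k2_le`). All of this is in `Pool/Agent/Q62/UM/Lem.lean`.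
We write `v j`, `H j`, `G j` for `v (dir j)`, `H (dir j)`, `G (dir j)` if `j` is a root, and
`M = (N + 1) (d + 1)`. The bound (h3) of `Jt` is `|m j| ≤ κ e j^(-1/4)`; in particular
`|m j| e j ≤ κ`, `|m j| √(e j) ≤ κ`. -/

open Real Set MeasureTheory Topology Filter
open scoped ENNReal

namespace Pool.Agent.Q62.UM

noncomputable section

/-- the size -/
def MM (d N : ℕ) : ℝ := (N + 1) * (d + 1)

/-- **S2 (key inequality).** The field follows every root: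
`a j |b - v j - m j G j| ≤ 15 M κ`.

Proof. Since `∑ λ = 1 - λ0`,
`b - v j - m j G j = ∑ i, λ i (v i - v j - m j (G j - G i)) - λ0 (v j + m j G j) + (mb - m j) Λ`.
Put `k = dir j`, `y = y i k`.
(A) `G j - G i = sin (x k) - sin (x i)` and with `Δ = x k - x i`:
`sin (x k) - sin (x i) - sin Δ = sin (x k) (1 - cos Δ) - (1 - cos (x k)) sin Δ`, of absolute value at
most `√(H k) y²/2 + H k y / 2`. So by (h6)
`|v i - v j - m j (G j - G i)| ≤ κ (e j² + y²) / e j + |m j| (√(H k) y² + H k y) / 2`.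
Multiply by `a j λ i`: as `λ i ≤ 1`, `λ i y² ≤ 2 λ i H i + 2 λ i H k ≤ 4 H k`,
`a j λ i κ (e j² + y²) / e j = κ λ i (e j² + y²) / (e j² + H k) ≤ 5 κ`;
`a j λ i |m j| √(H k) y² / 2 ≤ |m j| (a j H k) · 2 √(H k) ≤ 4 |m j| e j ≤ 4 κ` (`a j H k ≤ e j`,
`aa_mul_H_le`); and `λ i y ≤ λ i (√(H i) + √(H k)) ≤ 2 √(H k)`, so
`a j λ i |m j| H k y / 2 ≤ |m j| (a j H k) √(H k) ≤ 2 |m j| e j ≤ 2 κ`. Sum over `i`: `11 d κ`.
(B) `a j λ0 |v j + m j G j| ≤ a j H k (κ + |m j|) ≤ e j κ + e j |m j| ≤ 2 κ`.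
(C) `mb - m j = (∑ i, a i (m i - m j) - m j) / (1 + ∑ a)`. For each `i` put
`h = min (H i) (H j)`; `|Λ| ≤ d √h`, and `a i a j / (1 + ∑ a) ≤ min (a i) (a j)`. If `e i ≤ e j`:
by (h7) `|m i - m j| ≤ κ √(e j) / √(e i)`, and `min (a i) (a j) √h √(e j) / √(e i) ≤ 1`: if
`h ≥ e i e j` then `a i ≤ e i / h` gives `√(e i e j) / √h ≤ 1`, else `a j ≤ 1 / e j` gives
`√h / √(e i e j) ≤ 1`. The case `e j ≤ e i` is symmetric. So `a j · a i |m i - m j| |Λ| / (1+∑ a)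
≤ d κ`, in total `N d κ`. Finally `a j |m j| |Λ| / (1 + ∑ a) ≤ |m j| d A j √(H j) ≤ d κ`.
Total: `(11 d + 2 + N d + d) κ ≤ 15 M κ`. -/
def S_S2 : Prop := ∀ (d N : ℕ) (dir : Fin N → Fin d) (x v w : Fin d → ℝ) (e m l : Fin N → ℝ)
  (κ : ℝ), Jt dir x v w e m l κ → (∀ k, 0 < Hf (x k)) → ∀ j,
  aa dir x e j * |bb dir x v e m - v (dir j) - m j * sin (x (dir j))| ≤ 15 * MM d N * κ

/-- **S3.** `|b| ≤ M κ`, and `|b - v k| ≤ 3 M κ H k^(1/4)`.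

Proof. `|b| ≤ ∑ λ |v| + |mb| |Λ|`, `∑ λ ≤ 1`; `|mb| |Λ| ≤ ∑ j, A j |m j| |Λ| ≤
∑ j, |m j| d A j √(H j) ≤ d N κ` by `Lam_le` and `k1_le`.
Second: `b - v k = ∑ i, λ i (v i - v k) - λ0 v k + mb Λ`;
`λ i |v i - v k| ≤ κ λ i (H i^(1/4) + H k^(1/4)) ≤ 2 κ H k^(1/4)` by (h5);
`λ0 |v k| ≤ H k κ ≤ 3 κ H k^(1/4)` as `λ0 ≤ min 1 (H k)`, hence `λ0 ≤ H k^(1/4)`;
`|mb| |Λ| ≤ ∑ j, A j κ e j^(-1/4) |Λ|`, where `|Λ| ≤ d √(H j)` and `|Λ| ≤ d √(H k)`, so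
`|Λ| ≤ d H j^(1/4) H k^(1/4)`, and `A j H j^(1/4) ≤ e j^(1/4)` (`k2_le`), so each term is at most
`d κ H k^(1/4)`. Total `(2 d + 3 + N d) κ H k^(1/4)`. -/
def S_S3 : Prop := ∀ (d N : ℕ) (dir : Fin N → Fin d) (x v w : Fin d → ℝ) (e m l : Fin N → ℝ)
  (κ : ℝ), Jt dir x v w e m l κ → (∀ k, 0 < Hf (x k)) →
  |bb dir x v e m| ≤ MM d N * κ ∧
  ∀ k, |bb dir x v e m - v k| ≤ 3 * MM d N * κ * √(√(Hf (x k)))

/-- **S5.** The derivative of `b` along the field `(1, b)` is at most `60 M³ κ`.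

Here `δ k = b - v k`, `n = m`, and (S3, a hypothesis here) `|δ k| ≤ C κ H k^(1/4)`, `|b| ≤ C κ` with
`C = 3 M`. Put `c k = cc x δ k`, so `|c k| ≤ 2 |δ k| / √(H k) ≤ 2 C κ H k^(-1/4)`.
`dbb = (i) + (ii) + (iii) + (iv) + (v)` with
(i) `∑ k, dlam k · v k = - ∑ k, λ k c k (v k - ∑ i, λ i v i)`,
`v k - ∑ i, λ i v i = λ0 v k + ∑ i, λ i (v k - v i)`.
`λ k λ i |c k| |v k - v i| ≤ λ k λ i 2 C κ H k^(-1/4) κ (H i^(1/4) + H k^(1/4)) ≤ 4 C κ²` since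
`λ i H i^(1/4) ≤ H k^(1/4)`; `λ k λ0 |c k| |v k| ≤ λ0 2 C κ² H k^(-1/4) ≤ 6 C κ²` (`λ0 ≤ H k`,
`H k ≤ 4`). Total `4 C d² + 6 C d` times `κ²`.
(ii) `∑ λ k |w k| ≤ κ`.
(iii) `mb · dLam`, `dLam = ∑ k, λ k (cos (x k) δ k - c k (G k - Λ))`. As `|mb| ≤ ∑ j, A j |m j|`,
consider a pair `j, k`: `A j |m j| λ k |δ k| ≤ C κ² e j^(-1/4) A j λ k H k^(1/4) ≤ C κ² e j^(-1/4)
A j H j^(1/4) ≤ C κ²`; `λ k |c k| |G k| ≤ 2 λ k |δ k|`: same with `2 C κ²`; `λ k |c k| |Λ| ≤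
2 C κ H k^(-1/4) d √(min (H j) (H k)) ≤ 2 C d κ H j^(1/4)`, so with `A j |m j|`: `2 C d κ²`. Total
`N d (3 C + 2 C d) κ²`.
(iv) `∑ j, a j |l j| |Λ| / (1 + ∑ a) ≤ ∑ j, A j |l j| d √(H j) ≤ ∑ j, d |l j| √(e j) ≤ N d κ`.
(v) `∑ j, A j |α j| |m j - mb| |Λ|`, `α j = m j - (2 e j² m j + 2 G j δ j) / (e j² + H j) =
m j (H j - e j²) / (e j² + H j) - 2 G j δ j / (e j² + H j)`, so `|α j| ≤ |m j| + 2 C κ H j^(-1/4)`.
`|m j - mb| ≤ (∑ i, a i |m i - m j| + |m j|) / (1 + ∑ a)`.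
(v-a) `A j |α j| |m j| |Λ| ≤ A j |m j|² d √(H j) + A j 2 C κ H j^(-1/4) |m j| d √(H j) ≤
d κ² e j^(-1/2) √(e j) + 2 C d κ² e j^(-1/4) A j H j^(1/4) ≤ d κ² + 2 C d κ²`.
(v-b) `A j A i |α j| |m i - m j| |Λ|`: `|Λ| ≤ d √h`, `h = min (H i) (H j)`, `|m i - m j| ≤ |m i| +
|m j|`, so it suffices to bound, for `k = i` and `k = j`, `A i A j |α j| |m k| d √h`. With
`|m k| ≤ κ e k^(-1/4)`, `√h ≤ H k^(1/4) H j^(1/4)`, `A k H k^(1/4) ≤ e k^(1/4)`: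
`A i A j |m k| √h ≤ κ (the other A) H j^(1/4)`. For `k = i` the other factor is `A j`, and
`A j H j^(1/4) |α j| ≤ A j H j^(1/4) |m j| + 2 C κ A j ≤ κ + 2 C κ`. For `k = j`:
`A i A j |m j| √h |m j| ≤ A j κ² e j^(-1/2) √(H j) ≤ κ²` and `A i A j |m j| √h 2 C κ H j^(-1/4) ≤
2 C κ² e j^(-1/4) A j H j^(1/4) ≤ 2 C κ²`. Total at most `N² d (2 + 4 C) κ²`.
All together (with `κ ≤ 1`, `C = 3 M`) at most `60 M³ κ`, even with room: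
`4 C d² + 6 C d + 1 + 3 C N d + 2 C N d² + N d + N d (1 + 2 C) + N² d (2 + 4 C) ≤ 20 C M²`. -/
def S_S5 : Prop := ∀ (d N : ℕ) (dir : Fin N → Fin d) (x v w : Fin d → ℝ) (e m l : Fin N → ℝ)
  (κ : ℝ), Jt dir x v w e m l κ → (∀ k, 0 < Hf (x k)) →
  |bb dir x v e m| ≤ MM d N * κ →
  (∀ k, |bb dir x v e m - v k| ≤ 3 * MM d N * κ * √(√(Hf (x k)))) →
  |dbb dir x v (fun k => bb dir x v e m - v k) w e m m l| ≤ 60 * MM d N ^ 3 * κ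

/-- **S6.** The derivative of `b` with respect to `θ`: `(b_θ)² ≤ (20 M² κ)² KK`.

Here `δ = 1`, `w = 0`, `n = 0`, `l = 0`; `c k = cc x 1 k = 2 G k / H k`, `|c k| ≤ 2 / √(H k)`. Put
`K j = √(e j) / (e j + H j)`, `K k i = y / (y² + H k)`, `y = y i k` (so
`KK = 1 + ∑ K j + ∑ K k i`, the second sum over `i ≠ k`; all terms are nonnegative, hence each
`√K ≤ √KK`, and `1 ≤ √KK`). We show `|b_θ| ≤ κ √KK (5 d² + 4 d + (3 + 4 d) N + 8 d N²)`.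
(i) `∑ k, dlam k · v k = - ∑ k, λ k c k (λ0 v k + ∑ i, λ i (v k - v i))`. For `i ≠ k`,
`(λ k λ i c k (v k - v i))² ≤ 4 κ² λ k² λ i² y / H k ≤ 20 κ² K k i`: if `H k ≤ H i` then `y² ≤ 4 H i`,
`λ i ≤ H k / H i`, so `λ i² (y² + H k) / H k ≤ (H k / H i²) (4 H i + H k) ≤ 5`; if `H k > H i` then
`y² ≤ 4 H k`, `(y² + H k) / H k ≤ 5`. `λ k λ0 |c k| |v k| ≤ H k · 2 κ / √(H k) ≤ 4 κ`.
(iii) `|dLam| ≤ ∑ k, λ k (|cos| + |c k| (|G k| + |Λ|)) ≤ 1 + (2 + 2 d)`, and `|mb| ≤ ∑ j, A j |m j|`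
with `(A j |m j|)² ≤ κ² A j² / √(e j) ≤ κ² K j` (`k3_le`).
(v) `∑ j, A j (2 |G j| / (e j² + H j)) |m j - mb| |Λ|`, where `|m j - mb| ≤ ∑ i, A i |m i - m j| +
|m j|` (even divided by `1 + ∑ a`, not needed), `|Λ| ≤ d √(H j)`, `2 |G j| d √(H j) / (e j² + H j)
≤ 2 d`. So the terms are at most `2 d A j |m j| ≤ 2 d κ √(K j)` and `2 d A j A i (|m i| + |m j|) ≤
2 d κ (√(K i) + √(K j))`. -/
def S_S6 : Prop := ∀ (d N : ℕ) (dir : Fin N → Fin d) (x v w : Fin d → ℝ) (e m l : Fin N → ℝ)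
  (κ : ℝ), Jt dir x v w e m l κ → (∀ k, 0 < Hf (x k)) →
  dbb dir x v (fun _ => 1) (fun _ => 0) e m (fun _ => 0) (fun _ => 0) ^ 2 ≤
    (20 * MM d N ^ 2 * κ) ^ 2 * KK dir x e

/-- **S7.** The derivative of `xi` along the field `(1, b)`: `(dxi)² ≤ (10 M³ κ)² KK`.

`δ k = b - v k`, `|δ k| ≤ C κ H k^(1/4)`, `C = 3 M`. A term `dAh s x s' δ` has the two parts
`(s (1 + s/2) / (s² + (1 + s) H) - 1/2) δ` and `- sin x · s' / (s² + (1 + s) H)`. With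
`K = s / (s² + H)` and `0 < s ≤ 2` the first is at most `(2 K + 1/2) C κ H^(1/4)`, and
`(K H^(1/4))² = K · s √H / (s² + H) ≤ K / 2`, `H^(1/4) ≤ √2`; so it is at most
`C κ (3/2 √K + 1)`. For the second, `|sin x| ≤ √H`, and `|s'| ≤ κ √s`: for a root `s = √(e j)`,
`s' = m j √(e j) / 2`, `|m j| e j^(1/4) ≤ κ`; for a pair `s = y i k`, `s' = sin (x i - x k)
(δ i - δ k) / y`, `δ i - δ k = v k - v i`, `|sin (x i - x k)| ≤ y`, (h5). Hence it is at most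
`√H κ √s / (s² + H) ≤ κ √K`. (If `y i k = 0` then all of this is `-1/2 δ`.) There are at most
`N + d²` terms, each of them at most `κ (C (3/2 √K + 1) + √K) ≤ κ √KK (3 C + 1)`; refine slightly:
`C (3/2 √K + 1) + √K ≤ (5/2 C + 1) √KK`, `(N + d²) (15/2 M + 1) ≤ 10 M³`. -/
def S_S7 : Prop := ∀ (d N : ℕ) (dir : Fin N → Fin d) (x v w : Fin d → ℝ) (e m l : Fin N → ℝ)
  (κ : ℝ), Jt dir x v w e m l κ → (∀ k, 0 < Hf (x k)) →
  (∀ k, |bb dir x v e m - v k| ≤ 3 * MM d N * κ * √(√(Hf (x k)))) →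
  dxi dir x (fun k => bb dir x v e m - v k) e m ^ 2 ≤ (10 * MM d N ^ 3 * κ) ^ 2 * KK dir x e

/-- **S8.** `xi` is bounded and its derivative with respect to `θ` is large:
`|xi| ≤ 2 M²`, `KK / 3 - M² ≤ dxi` (with `δ = 1`, `n = 0`).

Proof. `|arctan| ≤ π / 2 ≤ 2`, at most `N + d²` terms. For `0 ≤ s ≤ 2`, `H > 0`:
`s (1 + s/2) / (s² + (1 + s) H) ≥ s / (s² + 3 H) ≥ (1/3) s / (s² + H)`; for the roots `s² = e j`, for
the pairs `s² = Hf (x i - x k)` and `δ i - δ k = 0`. Sum: `(KK - 1) / 3 - (N + d²) / 2`. -/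
def S_S8 : Prop := ∀ (d N : ℕ) (dir : Fin N → Fin d) (x : Fin d → ℝ) (e : Fin N → ℝ),
  (∀ j, 0 < e j) → (∀ j, e j ≤ 1) →
  |xi dir x e| ≤ 2 * MM d N ^ 2 ∧ ((∀ k, 0 < Hf (x k)) →
    KK dir x e / 3 - MM d N ^ 2 ≤ dxi dir x (fun _ => 1) e (fun _ => 0))

/-- **S9 (final inequality, numbers only).** Upper bound for `g = 1 + κ ξ`, lower bound for
`g = 1 - κ ξ`. Put `σ = s - b c`, `|b| ≤ C κ ≤ 1/2`, so `σ² ≤ 3` (`|σ| ≤ 3/2`), `1/2 ≤ g ≤ 3/2`.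
`- κ σ² ξθ ≤ - κ σ² K / 3 + 3 C κ`; `|c σ κ ξV| ≤ κ |σ| C κ √K ≤ κ (σ² K / 12 + 3 C² κ²) ≤
κ σ² K / 12 + κ`; `|g c² bV| ≤ (3/2) C κ`; `|g c σ bθ| ≤ (3/2) |σ| C κ √K ≤ κ (σ² K / 12 +
(27/4) C²)`; `|g ΘV| ≤ (3/2) C κ`; `|g b| ≤ (3/2) C κ`. Sum at most `16 C² κ` as `C ≥ 1`. The other
sign is the same. -/
def S_S9 : Prop := ∀ (C κ K ξ ξθ ξV b bθ bV ΘV c s : ℝ), 1 ≤ C → 0 ≤ κ → C * κ ≤ 1 / 2 → 1 ≤ K →
  c ^ 2 + s ^ 2 = 1 → |b| ≤ C * κ → |bV| ≤ C * κ → bθ ^ 2 ≤ (C * κ) ^ 2 * K →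
  ξV ^ 2 ≤ (C * κ) ^ 2 * K → K / 3 - C ≤ ξθ → |ξ| ≤ C → |ΘV| ≤ C * κ →
  (1 / 2 ≤ 1 + κ * ξ ∧ 1 / 2 ≤ 1 - κ * ξ) ∧
  (-(κ * ξθ) * (s - b * c) ^ 2 - c * (s - b * c) * (κ * ξV) + (1 + κ * ξ) * c ^ 2 * bV +
    (1 + κ * ξ) * (c * (s - b * c)) * bθ - (1 + κ * ξ) * ΘV + (1 + κ * ξ) * b ≤ 16 * C ^ 2 * κ) ∧
  (-(16 * C ^ 2 * κ) ≤ (κ * ξθ) * (s - b * c) ^ 2 + c * (s - b * c) * (κ * ξV) +
    (1 - κ * ξ) * c ^ 2 * bV + (1 - κ * ξ) * (c * (s - b * c)) * bθ - (1 - κ * ξ) * ΘV +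
    (1 - κ * ξ) * b)

/-- **C1.** The formula for the derivative of `bb` along a path. Where all `Hf (x k) > 0` we have
`lam x k = (Hf (x k))⁻¹ / dn x` (`lam_eq`; this holds in a neighbourhood), the derivative of
`Hf (x k)` is `2 sin (x k) δ k`, so that of `lam x k` is `lam x k (∑ i, lam x i c i - c k)`,
`c = cc x δ`. The derivative of `aa j` is `daa j`; the quotient rule gives `dmb`. -/
def S_C1 : Prop := ∀ (d N : ℕ) (dir : Fin N → Fin d) (x v : Fin d → ℝ → ℝ) (e m : Fin N → ℝ → ℝ)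
  (δ w : Fin d → ℝ) (n l : Fin N → ℝ) (s : ℝ), (∀ k, HasDerivAt (x k) (δ k) s) →
  (∀ k, HasDerivAt (v k) (w k) s) → (∀ j, HasDerivAt (e j) (e j s * n j) s) →
  (∀ j, HasDerivAt (m j) (l j) s) → (∀ j, 0 < e j s) → (∀ k, 0 < Hf (x k s)) →
  HasDerivAt (fun s => bb dir (fun k => x k s) (fun k => v k s) (fun j => e j s) (fun j => m j s))
    (dbb dir (fun k => x k s) (fun k => v k s) δ w (fun j => e j s) (fun j => m j s) n l) s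

/-- **C2.** The formula for the derivative of `xi` along a path. For `Ah s x = arctan (sin x / (1 + s
- cos x))` with `s > 0`: `(sin x)² + (1 + s - cos x)² = s² + (1 + s) Hf x`, the derivative with
respect to `x` is `((1 + s) cos x - 1) / (s² + (1 + s) Hf x) = s (1 + s/2) / (s² + (1 + s) Hf x) -
1/2`, the one with respect to `s` is `- sin x / (s² + (1 + s) Hf x)`. The derivative of `√(e j)` is
`n j √(e j) / 2`, the one of `√(Hf (x i - x k))` is `sin (x i - x k) (δ i - δ k) / √(Hf (x i -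
x k))`. -/
def S_C2 : Prop := ∀ (d N : ℕ) (dir : Fin N → Fin d) (x : Fin d → ℝ → ℝ) (e : Fin N → ℝ → ℝ)
  (δ : Fin d → ℝ) (n : Fin N → ℝ) (s : ℝ), (∀ k, HasDerivAt (x k) (δ k) s) →
  (∀ j, HasDerivAt (e j) (e j s * n j) s) → (∀ j, 0 < e j s) →
  (∀ i k, i ≠ k → 0 < Hf (x i s - x k s)) →
  HasDerivAt (fun s => xi dir (fun k => x k s) (fun j => e j s))
    (dxi dir (fun k => x k s) δ (fun j => e j s) n) s

/-- **SM (regularity).** The functions `b`, `ξ` are `C¹` on the strip over `J` and periodic in `θ`.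
`den x > 0` if the directions are different from each other (at most one `Hf (x k)` vanishes; if
`Hf (x k) = 0` then the product over `i ≠ k` is positive; if none vanishes, the whole product is
positive; the empty product is `1`), so `lam` is a quotient of smooth functions of `θ` and
`y k (u)`; `1 + ∑ aa > 0`; `e j² + Hf > 0` as `e j > 0`; in `Ah s x` we have `s > 0`, so
`1 + s - cos x > 0`; `deriv (y k)` and `deriv (η j) / η j` are `C²` on the open set `J`. -/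
def S_SM : Prop := ∀ (g : Cfg) (J : Set ℝ), IsOpen J → g.Reg J →
  ContDiffOn ℝ 1 g.b {z | z.re ∈ J} ∧ ContDiffOn ℝ 1 g.ξ {z | z.re ∈ J} ∧
  ContDiffOn ℝ 1 g.F {z | z.re ∈ J} ∧ (∀ z, z.re ∈ J → g.F z ≠ 0) ∧
  (∀ z, g.b (z + 2 * π * Complex.I) = g.b z) ∧ (∀ z, g.ξ (z + 2 * π * Complex.I) = g.ξ z) ∧
  (∀ z, g.F (z + 2 * π * Complex.I) = g.F z)

/-- **TH (derivative of the direction).** The imaginary part of the logarithmic derivative of `F` in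
the direction `1 + i b`, for every real number `b`. Write `E = exp (i θ)`, `ω = ρ exp (i y)`,
`x = θ - y`, `ρ = (1 - s η) / (1 + s η)`. The factor `E - ω` has the logarithmic derivative
`(i b E - ω') / (E - ω)`, `ω' = (ρ' + i ρ v) exp (i y)`, and
`Im ((i b E - ω') / (E - ω)) = (b (1 - ρ cos x) - ρ v (cos x - ρ) + ρ' sin x) / D²`,
`D² = 1 - 2 ρ cos x + ρ²`, which is `b + (b - v) (P - 1) / 2 + ρ' sin x / D²`, `P = (1 - ρ²) / D²`.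
Since `1 - ρ² = s η (1 + ρ)²`, `D² = (1 + ρ)² (η² + (1 - η²) Hf x / 4)` (as `4 ρ / (1 + ρ)² =
1 - η²`) and `ρ' = - s η' (1 + ρ)² / 2`, this is
`(b + v) / 2 + s p / 2 · (b - v - m sin x)`, `p = η / (η² + (1 - η²) Hf x / 4)`, `m = η' / η`. -/
def S_TH : Prop := ∀ (g : Cfg) (J : Set ℝ), IsOpen J → g.Reg J → ∀ (z : ℂ), z.re ∈ J → ∀ b : ℝ,
  (fderiv ℝ g.F z (1 + b * Complex.I) / g.F z).im =
    (deriv g.c z.re / g.c z.re).im + g.q * b +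
      ∑ j, ((b + g.v z.re (g.dir j)) / 2 + g.s j / 2 *
        (g.e z.re j / (g.e z.re j ^ 2 + (1 - g.e z.re j ^ 2) * Hf (g.X z (g.dir j)) / 4)) *
          (b - g.v z.re (g.dir j) - g.m z.re j * sin (g.X z (g.dir j))))

/-- **SF (the two fields).** From S2, S3, S5-S9, C1, C2, SM, TH (to be proved as
`theorem sf (h2 : S_S2) (h3 : S_S3) (h5 : S_S5) (h6 : S_S6) (h7 : S_S7) (h8 : S_S8) (h9 : S_S9)
(c1 : S_C1) (c2 : S_C2) (sm : S_SM) (th : S_TH) : S_SF`).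

Fix `z` with `z.re ∈ U` and write `t = κ` or `t = -κ`, `gg = 1 + t ξ`, `V = 1 + i b`, `W = gg V`,
`exp (i φ) = c + i s = c V + i σ`, `σ = s - b c`. All functions are `C¹` on the open strip over `J`
(SM). With `∂V f = fderiv f z (1 + i b z)` and `fθ = fderiv f z i` we get
`fderiv W z (exp (i φ)) = (fderiv gg z (e^{iφ})) V + gg i (fderiv b z (e^{iφ}))`, the imaginary part
of this times `exp (-i φ)` is `- σ (c t ∂V ξ + σ t ξθ) + gg c (c ∂V b + σ bθ)`, and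
`fderiv F z (W z) = gg fderiv F z (1 + i b)`, `Im W = gg b`. So `Kf F W z φ` is the expression in
S9 (`Kf = -(t ξθ) σ² - c σ t ξV + gg c² bV + gg c σ bθ - gg ΘV + gg b`,
`ΘV = Im (fderiv F z (1 + i b) / F z)`).
First let all `Hf (g.X z k)` be positive. Along the path `s ↦ z + s (1 + i b)` the angles
`x k = θ - y k` have the derivative `δ k = b - v k`, the `v k` the derivative `w k`, `e j` the
derivative `e j m j`, `m j` the derivative `l j`; along `s ↦ z + i s`: `δ = 1`, the others `0`. So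
C1 and C2 give `bV = dbb ...`, `bθ = dbb ...`, `ξV = dxi ...`, `ξθ = dxi ...` (chain rule,
uniqueness of the derivative) and S3, S5-S8 bound them; constants: all bounds hold with
`C = g.CM = 100 (|q| + 1) M³` (`M ≥ 1`). For `ΘV` use TH:
`|ΘV| ≤ κ + |q| |b| + ∑ j, ((|b| + κ) / 2 + (1/2) p j |b - v j - m j sin (x j)|)` where
`p j ≤ 8 aa j` (with `S = Hf x / 4 ∈ [0, 1]`: `e² + (1 - e²) S ≥ (e² + 4 S) / 8`) and S2, so
`|ΘV| ≤ (1 + |q| M + N M + 60 N M) κ ≤ C κ`. Then S9.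
In general: for fixed `z.re` and `φ` the function `θ ↦ Kf F W (u + i θ) φ` is continuous (SM), and the
`θ` with some `Hf (θ - y k) = 0` are isolated (`cos (θ - y k) = 1`), so the inequalities extend by
density. `(W z).re = gg ≥ 1 - κ |ξ| ≥ 1/2` by S8 (`2 M² κ ≤ 1/2`, this needs no genericity). -/
def S_SF : Prop := ∀ (g : Cfg) (J U : Set ℝ) (κ : ℝ), IsOpen J → g.Reg J → U ⊆ J → 0 ≤ κ →
  g.CM * κ ≤ 1 / 2 → (∀ u ∈ U, g.Bd u κ) →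
  Mv (g.W κ) J U ∧ Mv (g.W (-κ)) J U ∧
  (∀ (z : ℂ) (φ : ℝ), z.re ∈ U → Kf g.F (g.W κ) z φ ≤ 16 * g.CM ^ 2 * κ) ∧
  (∀ (z : ℂ) (φ : ℝ), z.re ∈ U → -(16 * g.CM ^ 2 * κ) ≤ Kf g.F (g.W (-κ)) z φ)

end

end Pool.Agent.Q62.UM
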